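import Pool.Agent.H.MP_830f5a_co.Defs

/-! Basic facts: linear functionals on polynomials, interior points, vertices. -/

namespace Pool.Agent.H.MP_830f5a_co
open Finset Polynomial Filter Topology

abbrev E (d : ℕ) := EuclideanSpace ℝ (Fin d)

noncomputable def lin (d : ℕ) : E d →ₗ[ℝ] ℝ[X] →ₗ[ℝ] ℝ :=
  LinearMap.mk₂ ℝ (fun v p => ∑ j : Fin d, p.coeff (j.1 + 1) * v j)
    (fun v w p => by simp [mul_add, sum_add_distrib])
    (fun c v p => by simp [mul_sum]; exact sum_congr rfl fun j _ => by ring)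
    (fun v p q => by simp [add_mul, sum_add_distrib])
    (fun c v p => by simp [mul_sum]; exact sum_congr rfl fun j _ => by ring)

lemma lin_apply {d : ℕ} (v : E d) (p : ℝ[X]) :
    lin d v p = ∑ j : Fin d, p.coeff (j.1 + 1) * v j := rfl

lemma lin_moment {d : ℕ} {p : ℝ[X]} (hp : p.natDegree ≤ d) (t : ℝ) :
    lin d (moment d t) p = p.eval t - p.coeff 0 := by
  rw [lin_apply, eval_eq_sum_range' (n := d + 1) (by omega), sum_range_succ',
    ← Fin.sum_univ_eq_sum_range (fun i => p.coeff (i + 1) * t ^ (i + 1))]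
  simp [moment]

lemma lin_cont {d : ℕ} (p : ℝ[X]) : Continuous fun v : E d => lin d v p := by
  simp only [lin_apply]
  fun_prop

lemma lin_X_pow {d : ℕ} (v : E d) (i : Fin d) : lin d v (X ^ (i.1 + 1)) = v i := by
  rw [lin_apply, sum_eq_single i]
  · simp
  · intro j _ hj
    rw [coeff_X_pow, if_neg, zero_mul]
    intro h
    exact hj (Fin.ext (by omega))
  · simp

lemma lin_one {d : ℕ} (v : E d) : lin d v 1 = 0 := by
  simp [lin_apply, coeff_one]

lemma convex_cyclic (d : ℕ) (T : Finset ℝ) : Convex ℝ (cyclic d T) := convex_convexHull _ _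

lemma moment_mem {d : ℕ} {T : Finset ℝ} {t : ℝ} (ht : t ∈ T) : moment d t ∈ cyclic d T :=
  subset_convexHull _ _ ⟨t, ht, rfl⟩

lemma closed_cyclic (d : ℕ) (T : Finset ℝ) : IsClosed (cyclic d T) :=
  ((T.finite_toSet.image _).isCompact_convexHull ℝ).isClosed

lemma exists_weights {d : ℕ} {T : Finset ℝ} {z : E d} (hz : z ∈ cyclic d T) :
    ∃ μ : ℝ → ℝ, (∀ x, 0 ≤ μ x) ∧ ∑ x ∈ T, μ x = 1 ∧ ∑ x ∈ T, μ x • moment d x = z := by
  have hc : Convex ℝ {z : E d | ∃ μ : ℝ → ℝ, (∀ x, 0 ≤ μ x) ∧ ∑ x ∈ T, μ x = 1 ∧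
      ∑ x ∈ T, μ x • moment d x = z} := by
    rintro _ ⟨μ, h1, h2, rfl⟩ _ ⟨ν, k1, k2, rfl⟩ a b ha hb hab
    refine ⟨fun x => a * μ x + b * ν x, fun x => by have := h1 x; have := k1 x; positivity, ?_, ?_⟩
    · rw [sum_add_distrib, ← mul_sum, ← mul_sum, h2, k2]; simpa using hab
    · rw [smul_sum, smul_sum, ← sum_add_distrib]
      exact sum_congr rfl fun x _ => by rw [add_smul, mul_smul, mul_smul]
  refine convexHull_min ?_ hc hz
  rintro _ ⟨t, ht, rfl⟩
  refine ⟨fun x => if x = t then 1 else 0, fun x => by dsimp only; split_ifs <;> norm_num, ?_, ?_⟩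
  · rw [sum_ite_eq']; simp [mem_coe.1 ht]
  · simp only [ite_smul, one_smul, zero_smul]
    rw [sum_ite_eq']; simp [mem_coe.1 ht]

/-- bound for an affine functional on the polytope -/
lemma lin_le {d : ℕ} {T : Finset ℝ} {p : ℝ[X]} (hp : p.natDegree ≤ d) {c : ℝ}
    (h : ∀ x ∈ T, p.eval x ≤ c) {z : E d} (hz : z ∈ cyclic d T) :
    lin d z p + p.coeff 0 ≤ c := by
  obtain ⟨μ, h1, h2, rfl⟩ := exists_weights hz
  rw [map_sum, LinearMap.sum_apply]
  calc _ = ∑ x ∈ T, μ x * p.eval x := by
        have : p.coeff 0 = ∑ x ∈ T, μ x * p.coeff 0 := by rw [← sum_mul, h2, one_mul]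
        rw [this, ← sum_add_distrib]
        refine sum_congr rfl fun x _ => ?_
        rw [map_smul, LinearMap.smul_apply, lin_moment hp, smul_eq_mul]; ring
    _ ≤ ∑ x ∈ T, μ x * c := sum_le_sum fun x hx => mul_le_mul_of_nonneg_left (h x hx) (h1 x)
    _ = c := by rw [← sum_mul, h2, one_mul]

lemma interior_move {d : ℕ} {K : Set (E d)} {z : E d} (hz : z ∈ interior K) (u : E d) :
    ∃ η : ℝ, 0 < η ∧ z + η • u ∈ K := by
  have h1 : Tendsto (fun η : ℝ => z + η • u) (𝓝[>] 0) (𝓝 z) := by
    have : Continuous fun η : ℝ => z + η • u := by fun_prop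
    have h := this.tendsto 0
    simp only [zero_smul, add_zero] at h
    exact h.mono_left nhdsWithin_le_nhds
  have h2 := h1.eventually (mem_interior_iff_mem_nhds.1 hz)
  obtain ⟨η, h3, h4⟩ := (h2.and self_mem_nhdsWithin).exists
  exact ⟨η, h4, h3⟩

/-- strict bound at interior points -/
lemma lin_lt {d : ℕ} {T : Finset ℝ} {p : ℝ[X]} (hp : p.natDegree ≤ d) {c : ℝ}
    (h : ∀ x ∈ T, p.eval x ≤ c) {a b : ℝ} (hab : p.eval a < p.eval b) {z : E d}
    (hz : z ∈ interior (cyclic d T)) : lin d z p + p.coeff 0 < c := by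
  obtain ⟨η, h1, h2⟩ := interior_move hz (moment d b - moment d a)
  have h3 := lin_le hp h h2
  rw [map_add, map_smul, map_sub, LinearMap.add_apply, LinearMap.smul_apply, LinearMap.sub_apply,
    lin_moment hp, lin_moment hp, smul_eq_mul] at h3
  have : 0 < η * (p.eval b - p.eval a) := mul_pos h1 (by linarith)
  nlinarith

lemma illum_neg {d : ℕ} {T : Finset ℝ} {p : ℝ[X]} (hp : p.natDegree ≤ d) {t : ℝ}
    (h : ∀ x ∈ T, p.eval x ≤ p.eval t) {a : ℝ} (ha : p.eval a < p.eval t) {v : E d}
    (hv : Illuminates (cyclic d T) v (moment d t)) : lin d v p < 0 := by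
  obtain ⟨r, h1, h2⟩ := hv
  have h3 := lin_lt hp h ha h2
  rw [map_add, map_smul, LinearMap.add_apply, LinearMap.smul_apply, lin_moment hp,
    smul_eq_mul] at h3
  by_contra h4
  have := mul_nonneg h1.le (not_lt.1 h4)
  linarith

/-- antipodal vertices cannot be illuminated by one direction -/
lemma not_both {d : ℕ} {T : Finset ℝ} {p : ℝ[X]} (hp : p.natDegree ≤ d) {s t : ℝ}
    (h : ∀ x ∈ T, p.eval s ≤ p.eval x ∧ p.eval x ≤ p.eval t) (hst : p.eval s < p.eval t) {v : E d}
    (h1 : Illuminates (cyclic d T) v (moment d s)) (h2 : Illuminates (cyclic d T) v (moment d t)) :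
    False := by
  have a1 := illum_neg hp (fun x hx => (h x hx).2) hst h2
  have a2 := illum_neg (p := -p) (t := s) (a := t) (by simpa using hp)
    (fun x hx => by simpa using (h x hx).1) (by simpa using hst) h1
  rw [map_neg] at a2
  linarith

lemma moment_frontier {d : ℕ} (hd : 2 ≤ d) {T : Finset ℝ} {t : ℝ} (ht : t ∈ T) :
    moment d t ∈ frontier (cyclic d T) := by
  refine ⟨subset_closure (moment_mem ht), fun h => ?_⟩
  have hp : (-(X - C t) ^ 2 : ℝ[X]).natDegree ≤ d := by
    rw [natDegree_neg]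
    refine le_trans ?_ hd
    compute_degree
  have := lin_lt (T := T) hp (c := 0) (fun x _ => by simp [sq_nonneg]) (a := t + 1) (b := t)
    (by simp) h
  rw [lin_moment hp] at this
  simp at this

lemma illum_smul {d : ℕ} {K : Set (E d)} {v q : E d} (h : Illuminates K v q) {c : ℝ}
    (hc : 0 < c) : Illuminates K (c • v) q := by
  obtain ⟨r, h1, h2⟩ := h
  refine ⟨r / c, by positivity, ?_⟩
  rwa [smul_smul, div_mul_cancel₀ _ hc.ne']

/-- it suffices to illuminate the vertices -/
lemma illumBy_of_vertices {d : ℕ} (hd : 2 ≤ d) {T : Finset ℝ} (A : Finset ℝ) (v : ℝ → E d)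
    (hA : ∀ a ∈ A, ∃ x ∈ T, Illuminates (cyclic d T) (v a) (moment d x))
    (h : ∀ x ∈ T, ∃ a ∈ A, Illuminates (cyclic d T) (v a) (moment d x)) :
    IllumBy (cyclic d T) A.card := by
  have hne : ∀ a ∈ A, v a ≠ 0 := by
    intro a ha h0
    obtain ⟨x, hx, r, -, h2⟩ := hA a ha
    rw [h0, smul_zero, add_zero] at h2
    exact (moment_frontier hd hx).2 h2
  have hc : Convex ℝ {q | q ∈ cyclic d T ∧ ∃ a ∈ A, Illuminates (cyclic d T) (v a) q} := by
    rintro x ⟨hx, a, ha, r, hr, h1⟩ y ⟨hy, b, hb, r', hr', h2⟩ α β hα hβ hαβ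
    refine ⟨convex_cyclic d T hx hy hα hβ hαβ, ?_⟩
    rcases hα.eq_or_lt with rfl | hα'
    · obtain rfl : β = 1 := by linarith
      exact ⟨b, hb, r', hr', by simpa using h2⟩
    · refine ⟨a, ha, α * r, by positivity, ?_⟩
      have := (convex_cyclic d T).combo_interior_self_mem_interior h1 hy hα' hβ hαβ
      convert this using 1
      rw [smul_add, mul_smul]; abel
  have hsub : cyclic d T ⊆ {q | q ∈ cyclic d T ∧ ∃ a ∈ A, Illuminates (cyclic d T) (v a) q} := by
    refine convexHull_min ?_ hc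
    rintro _ ⟨t, ht, rfl⟩
    exact ⟨moment_mem ht, h t ht⟩
  refine ⟨fun i => ‖v (A.equivFin.symm i)‖⁻¹ • v (A.equivFin.symm i), fun i => ?_, fun q hq => ?_⟩
  · rw [norm_smul, norm_inv, norm_norm,
      inv_mul_cancel₀ (norm_ne_zero_iff.2 (hne _ (A.equivFin.symm i).2))]
  · obtain ⟨-, a, ha, h1⟩ := hsub ((closed_cyclic d T).frontier_subset hq)
    refine ⟨A.equivFin ⟨a, ha⟩, ?_⟩
    simp only [Equiv.symm_apply_apply]
    exact illum_smul h1 (inv_pos.2 (norm_pos_iff.2 (hne a ha)))

/-- lower bound from a set of vertices no two of which are illuminated together -/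
lemma card_le_of_illumBy {d : ℕ} (hd : 2 ≤ d) {T : Finset ℝ} {A : Finset ℝ} (hA : A ⊆ T)
    (h : ∀ s ∈ A, ∀ t ∈ A, s < t → ∀ v, Illuminates (cyclic d T) v (moment d s) →
      Illuminates (cyclic d T) v (moment d t) → False) {n : ℕ} (hn : IllumBy (cyclic d T) n) :
    A.card ≤ n := by
  obtain ⟨v, -, hv⟩ := hn
  have : ∀ a : A, ∃ i, Illuminates (cyclic d T) (v i) (moment d a) :=
    fun a => hv _ (moment_frontier hd (hA a.2))
  choose f hf using this
  have hinj : Function.Injective f := by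
    intro a b hab
    by_contra hne
    rcases lt_or_gt_of_ne (fun h' => hne (Subtype.ext h')) with h' | h'
    · exact h a a.2 b b.2 h' _ (hf a) (hab ▸ hf b)
    · exact h b b.2 a a.2 h' _ (hf b) (hab ▸ hf a)
  simpa using Fintype.card_le_of_injective f hinj

lemma basis_natDegree {d : ℕ} {W : Finset ℝ} (hW : W.card = d + 1) {w : ℝ} (hw : w ∈ W) :
    (Lagrange.basis W id w).natDegree ≤ d := by
  rw [Lagrange.natDegree_basis (Set.injOn_id _) hw, hW]; simp

/-- interior points of a simplex spanned by vertices -/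
lemma mem_interior_of_basis {d : ℕ} {T W : Finset ℝ} (hWT : W ⊆ T) (hW : W.card = d + 1)
    {z : E d} (h : ∀ w ∈ W, 0 < lin d z (Lagrange.basis W id w) + (Lagrange.basis W id w).coeff 0) :
    z ∈ interior (cyclic d T) := by
  have hopen : IsOpen {z : E d | ∀ w ∈ W,
      0 < lin d z (Lagrange.basis W id w) + (Lagrange.basis W id w).coeff 0} := by
    have : {z : E d | ∀ w ∈ W,
        0 < lin d z (Lagrange.basis W id w) + (Lagrange.basis W id w).coeff 0} =
        ⋂ w ∈ W, {z : E d |
          0 < lin d z (Lagrange.basis W id w) + (Lagrange.basis W id w).coeff 0} := by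
      ext; simp
    rw [this]
    exact isOpen_biInter_finset fun w _ =>
      isOpen_lt continuous_const ((lin_cont _).add continuous_const)
  refine interior_maximal (fun y hy => ?_) hopen h
  have key : ∀ p : ℝ[X], p.degree < W.card → lin d y p + p.coeff 0 =
      ∑ w ∈ W, (lin d y (Lagrange.basis W id w) + (Lagrange.basis W id w).coeff 0) * p.eval w := by
    intro p hp
    have e := Lagrange.eq_interpolate (Set.injOn_id (W : Set ℝ)) hp
    rw [Lagrange.interpolate_apply] at e
    conv_lhs => rw [e]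
    rw [map_sum, finsetSum_coeff, ← sum_add_distrib]
    refine sum_congr rfl fun w _ => ?_
    rw [← smul_eq_C_mul, map_smul, coeff_smul, smul_eq_mul, smul_eq_mul]
    simp only [id]; ring
  have h1 := key 1 (by rw [degree_one, hW]; exact_mod_cast Nat.succ_pos d)
  simp only [lin_one, coeff_one_zero, zero_add, eval_one, mul_one] at h1
  have h2 : y = ∑ w ∈ W, (lin d y (Lagrange.basis W id w) + (Lagrange.basis W id w).coeff 0) •
      moment d w := by
    ext i
    have := key (X ^ (i.1 + 1)) (by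
      rw [degree_X_pow, hW]; exact_mod_cast Nat.succ_lt_succ i.2)
    rw [lin_X_pow] at this
    simp only [coeff_X_pow, eval_pow, eval_X] at this
    rw [if_neg (by omega), add_zero] at this
    rw [this]
    simp [moment]
  rw [h2]
  exact (convex_cyclic d T).sum_mem (fun w hw => (hy w hw).le) h1.symm
    (fun w hw => moment_mem (hWT hw))

/-- a criterion for illuminating a vertex -/
lemma illum_of_polys {d : ℕ} {T V : Finset ℝ} (hVT : V ⊆ T) (hV : V.card = d) {x : ℝ}
    (hx : x ∈ T) (hxV : x ∉ V) {v : E d}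
    (h : ∀ m ∈ V, ∃ l : ℝ[X], l.natDegree ≤ d ∧ 0 < l.eval m ∧ l.eval x = 0 ∧
      (∀ u ∈ V, u ≠ m → l.eval u = 0) ∧ 0 < lin d v l) :
    Illuminates (cyclic d T) v (moment d x) := by
  have hW : (insert x V).card = d + 1 := by rw [card_insert_of_notMem hxV, hV]
  have h1 : ∀ m ∈ V, 0 < lin d v (Lagrange.basis (insert x V) id m) := by
    intro m hm
    obtain ⟨l, l1, l2, l3, l4, l5⟩ := h m hm
    have hm' : m ∈ insert x V := mem_insert_of_mem hm
    have : Lagrange.basis (insert x V) id m = (l.eval m)⁻¹ • l := by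
      refine eq_of_degrees_lt_of_eval_finset_eq (insert x V) ?_ ?_ ?_
      · rw [hW]
        exact lt_of_le_of_lt (degree_le_of_natDegree_le (basis_natDegree hW hm'))
          (by exact_mod_cast Nat.lt_succ_self d)
      · rw [hW]
        exact lt_of_le_of_lt ((degree_smul_le _ _).trans (degree_le_of_natDegree_le l1))
          (by exact_mod_cast Nat.lt_succ_self d)
      · intro u hu
        rw [eval_smul, smul_eq_mul]
        by_cases hum : u = m
        · subst hum
          rw [inv_mul_cancel₀ l2.ne']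
          exact Lagrange.eval_basis_self (Set.injOn_id _) hm'
        · have : l.eval u = 0 := by
            rcases mem_insert.1 hu with rfl | hu
            · exact l3
            · exact l4 u hu hum
          rw [this, mul_zero]
          exact Lagrange.eval_basis_of_ne (v := id) (Ne.symm hum) hu
    rw [this, map_smul, smul_eq_mul]
    exact mul_pos (inv_pos.2 l2) l5
  set c := lin d v (Lagrange.basis (insert x V) id x)
  refine ⟨1 / (|c| + 1), by positivity, mem_interior_of_basis (insert_subset hx hVT) hW ?_⟩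
  intro w hw
  rw [map_add, map_smul, LinearMap.add_apply, LinearMap.smul_apply,
    lin_moment (basis_natDegree hW hw), smul_eq_mul]
  rcases mem_insert.1 hw with rfl | hw'
  · have e : (Lagrange.basis (insert w V) id w).eval w = 1 :=
      Lagrange.eval_basis_self (v := id) (Set.injOn_id _) hw
    rw [e]
    have : -1 < 1 / (|c| + 1) * c := by
      rw [one_div, inv_mul_eq_div, lt_div_iff₀ (by positivity)]
      have := neg_abs_le c
      linarith
    linarith
  · have e : (Lagrange.basis (insert x V) id w).eval x = 0 :=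
      Lagrange.eval_basis_of_ne (v := id) (fun h => hxV (h ▸ hw')) (mem_insert_self _ _)
    rw [e]
    have := mul_pos (show 0 < 1 / (|c| + 1) by positivity) (h1 w hw')
    linarith

end Pool.Agent.H.MP_830f5a_co
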