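import Pool.Agent.H.MP_830f5a_co.A

/-! Close parameters are exactly those whose vertices are illuminated by one direction. -/

namespace Pool.Agent.H.MP_830f5a_co
open Finset Polynomial Filter Topology

noncomputable def lam (U : Finset ℝ) (u : ℝ) : ℝ := 1 / ∏ x ∈ U.erase u, (u - x)

lemma abs_lam (U : Finset ℝ) (u : ℝ) : |lam U u| = wt U u := by
  rw [lam, wt, abs_div, abs_one, abs_prod]

lemma prod_sub_ne {B : Finset ℝ} {u : ℝ} (h : u ∉ B) : ∏ x ∈ B, (u - x) ≠ 0 :=
  prod_ne_zero_iff.2 fun x hx h' => h (by rw [sub_eq_zero.1 h']; exact hx)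

lemma lam_ne (U : Finset ℝ) (u : ℝ) : lam U u ≠ 0 :=
  one_div_ne_zero (prod_sub_ne (notMem_erase _ _))

lemma wt_pos (U : Finset ℝ) (u : ℝ) : 0 < wt U u := by
  rw [← abs_lam]; exact abs_pos.2 (lam_ne U u)

lemma coeff_lam {U : Finset ℝ} {e : ℕ} (hU : U.card = e + 1) {p : ℝ[X]} (hp : p.natDegree ≤ e) :
    ∑ u ∈ U, lam U u * p.eval u = p.coeff e := by
  have := Lagrange.coeff_eq_sum (s := U) (v := id) (Set.injOn_id _) (P := p) (by
    rw [hU]
    exact lt_of_le_of_lt (degree_le_of_natDegree_le hp) (by exact_mod_cast Nat.lt_succ_self e))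
  rw [hU, Nat.add_sub_cancel] at this
  rw [this]
  exact sum_congr rfl fun u _ => by simp only [lam, id]; ring

lemma ann_lam {U : Finset ℝ} {d : ℕ} (hU : U.card = d + 2) {p : ℝ[X]} (hp : p.natDegree ≤ d) :
    ∑ u ∈ U, lam U u * p.eval u = 0 := by
  rw [coeff_lam (e := d + 1) hU (by omega), coeff_eq_zero_of_natDegree_lt (by omega)]

noncomputable def nod (B : Finset ℝ) : ℝ[X] := ∏ x ∈ B, (X - C x)

lemma nod_natDegree (B : Finset ℝ) : (nod B).natDegree = B.card := by
  simp [nod]

lemma nod_eval (B : Finset ℝ) (u : ℝ) : (nod B).eval u = ∏ x ∈ B, (u - x) := by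
  simp [nod, eval_prod]

lemma nod_zero {B : Finset ℝ} {u : ℝ} (h : u ∈ B) : (nod B).eval u = 0 := by
  rw [nod_eval]; exact prod_eq_zero h (sub_self u)

lemma lin_nod_natDegree (B : Finset ℝ) (x : ℝ) : ((X - C x) * nod B).natDegree ≤ B.card + 1 := by
  refine natDegree_mul_le.trans ?_
  rw [nod_natDegree, natDegree_X_sub_C]; omega

lemma prod_same {B : Finset ℝ} {x y : ℝ} (h : ∀ m ∈ B, 0 < (x - m) * (y - m)) :
    0 < (∏ m ∈ B, (x - m)) * ∏ m ∈ B, (y - m) := by
  rw [← prod_mul_distrib]; exact prod_pos h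

lemma sum_U {V : Finset ℝ} {s t : ℝ} (hst : s ≠ t) (hs : s ∉ V) (ht : t ∉ V) (f : ℝ → ℝ) :
    ∑ u ∈ insert s (insert t V), f u = f s + f t + ∑ u ∈ V, f u := by
  rw [sum_insert (by simp [hst, hs]), sum_insert ht, add_assoc]

lemma card_U {V : Finset ℝ} {s t : ℝ} (hst : s ≠ t) (hs : s ∉ V) (ht : t ∉ V) :
    (insert s (insert t V)).card = V.card + 2 := by
  rw [card_insert_of_notMem (by simp [hst, hs]), card_insert_of_notMem ht]

lemma lam_s {V : Finset ℝ} {s t : ℝ} (hst : s ≠ t) (hs : s ∉ V) (ht : t ∉ V) :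
    lam (insert s (insert t V)) s = 1 / ((s - t) * ∏ m ∈ V, (s - m)) := by
  rw [lam, erase_insert (by simp [hst, hs]), prod_insert ht]

lemma lam_t {V : Finset ℝ} {s t : ℝ} (hst : s ≠ t) (hs : s ∉ V) (ht : t ∉ V) :
    lam (insert s (insert t V)) t = 1 / ((t - s) * ∏ m ∈ V, (t - m)) := by
  rw [insert_comm, lam_s hst.symm ht hs]

lemma close_illum {d : ℕ} (hd : 1 ≤ d) {T : Finset ℝ} {s t : ℝ} (hst : s < t)
    (h : Close d T s t) :
    ∃ v : E d, ∀ x ∈ T, s ≤ x → x ≤ t → Illuminates (cyclic d T) v (moment d x) := by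
  obtain ⟨V, hVT, hV, hout, hlt⟩ := h
  have hs : s ∉ V := fun h => by rcases hout s h with h | h <;> linarith
  have ht : t ∉ V := fun h => by rcases hout t h with h | h <;> linarith
  set U := insert s (insert t V) with hU
  set Ps := ∏ m ∈ V, (s - m) with hPs
  set Pt := ∏ m ∈ V, (t - m) with hPt
  have hP : 0 < Ps * Pt := prod_same fun m hm => by
    rcases hout m hm with h | h
    · exact mul_pos (by linarith) (by linarith)
    · exact mul_pos_of_neg_of_neg (by linarith) (by linarith)
  have hPt0 : Pt ≠ 0 := prod_sub_ne ht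
  have hPs0 : Ps ≠ 0 := prod_sub_ne hs
  set w : ℝ → ℝ := fun u => Pt * lam U u with hw
  have hts : 0 < t - s := by linarith
  have hwt : 0 < w t := by
    simp only [hw, hU]
    rw [lam_t hst.ne hs ht, ← hPt]
    have : Pt * (1 / ((t - s) * Pt)) = 1 / (t - s) := by field_simp
    rw [this]; positivity
  have hws : w s < 0 := by
    simp only [hw, hU]
    rw [lam_s hst.ne hs ht, ← hPs]
    have h1 : s - t ≠ 0 := by linarith
    have : Pt * (1 / ((s - t) * Ps)) = -(Ps * Pt / ((t - s) * Ps ^ 2)) := by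
      field_simp; ring
    rw [this, neg_lt_zero]; positivity
  have hann : ∀ p : ℝ[X], p.natDegree ≤ d →
      w s * p.eval s + w t * p.eval t + ∑ u ∈ V, w u * p.eval u = 0 := by
    intro p hp
    rw [← sum_U hst.ne hs ht (fun u => w u * p.eval u)]
    simp only [hw, mul_assoc]
    rw [← mul_sum, ann_lam (by rw [card_U hst.ne hs ht, hV]) hp, mul_zero]
  have habs : ∀ u, |w u| = |Pt| * wt U u := fun u => by simp only [hw]; rw [abs_mul, abs_lam]
  have h1 : ∑ u ∈ V, |w u| < -w s + w t := by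
    rw [← abs_of_neg hws, ← abs_of_pos hwt, habs, habs, ← mul_add]
    simp only [habs]
    rw [← mul_sum]
    exact mul_lt_mul_of_pos_left hlt (abs_pos.2 hPt0)
  have h2 := hann 1 (by simp)
  simp only [eval_one, mul_one] at h2
  have h3 : 2 * ∑ u ∈ V, max (w u) 0 = ∑ u ∈ V, |w u| + ∑ u ∈ V, w u := by
    rw [mul_sum, ← sum_add_distrib]
    refine sum_congr rfl fun u _ => ?_
    rcases le_total (w u) 0 with h | h
    · rw [max_eq_right h, abs_of_nonpos h]; ring
    · rw [max_eq_left h, abs_of_nonneg h]; ring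
  have hd' : (0 : ℝ) < d := by exact_mod_cast hd
  set η := (-w s - ∑ u ∈ V, max (w u) 0) / d with hη
  have hη0 : 0 < η := div_pos (by linarith) hd'
  set a : ℝ → ℝ := fun u => max (w u) 0 + η with ha
  have hsa : ∑ u ∈ V, a u = -w s := by
    simp only [ha]
    rw [sum_add_distrib, sum_const, hV, nsmul_eq_mul, hη, mul_div_cancel₀ _ hd'.ne']; ring
  refine ⟨∑ u ∈ V, a u • (moment d u - moment d s), fun x hx hsx hxt => ?_⟩
  have hlin : ∀ p : ℝ[X], p.natDegree ≤ d → lin d (∑ u ∈ V, a u • (moment d u - moment d s)) p =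
      ∑ u ∈ V, a u * p.eval u + w s * p.eval s := by
    intro p hp
    rw [map_sum, LinearMap.sum_apply]
    have : w s * p.eval s = -∑ u ∈ V, a u * p.eval s := by rw [← sum_mul, hsa]; ring
    rw [this, ← sub_eq_add_neg, ← sum_sub_distrib]
    refine sum_congr rfl fun u _ => ?_
    rw [map_smul, map_sub, LinearMap.smul_apply, LinearMap.sub_apply, lin_moment hp, lin_moment hp,
      smul_eq_mul]
    ring
  have hxV : x ∉ V := fun h => by rcases hout x h with h | h <;> linarith
  refine illum_of_polys hVT hV hx hxV fun m hm => ?_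
  set q := nod (V.erase m) with hq
  have hdeg : ∀ y, ((X - C y) * q).natDegree ≤ d := fun y => by
    have := lin_nod_natDegree (V.erase m) y
    rw [card_erase_of_mem hm, hV] at this
    exact this.trans (by omega)
  have hq0 : ∀ u ∈ V, u ≠ m → q.eval u = 0 := fun u hu hum => nod_zero (mem_erase.2 ⟨hum, hu⟩)
  have hqm : q.eval m ≠ 0 := by rw [hq, nod_eval]; exact prod_sub_ne (notMem_erase _ _)
  have hmx : m - x ≠ 0 := fun h => hxV (by rw [← sub_eq_zero.1 h]; exact hm)
  have hsingle : ∀ (f : ℝ → ℝ) (y : ℝ), ∑ u ∈ V, f u * ((X - C y) * q).eval u =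
      f m * ((m - y) * q.eval m) := by
    intro f y
    rw [sum_eq_single m]
    · simp
    · intro u hu hum; simp [hq0 u hu hum]
    · intro h; exact absurd hm h
  refine ⟨((m - x) * q.eval m) • ((X - C x) * q), (natDegree_smul_le _ _).trans (hdeg x), ?_, ?_, ?_,
    ?_⟩
  · have : (m - x) * q.eval m ≠ 0 := mul_ne_zero hmx hqm
    simpa using mul_self_pos.2 this
  · simp
  · intro u hu hum; simp [hq0 u hu hum]
  · rw [map_smul, hlin _ (hdeg x), hsingle, smul_eq_mul]
    have e1 := hann _ (hdeg t)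
    rw [hsingle] at e1
    simp only [eval_mul, eval_sub, eval_X, eval_C, sub_self, zero_mul, mul_zero, add_zero] at e1 ⊢
    have a1 : 0 < a m := by have := le_max_right (w m) 0; simp only [ha]; linarith
    have a2 : 0 < a m - w m := by have := le_max_left (w m) 0; simp only [ha]; linarith
    have b1 : 0 < (m - s) * (m - x) := by
      rcases hout m hm with h | h
      · exact mul_pos_of_neg_of_neg (by linarith) (by linarith)
      · exact mul_pos (by linarith) (by linarith)
    have b2 : 0 < (m - t) * (m - x) := by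
      rcases hout m hm with h | h
      · exact mul_pos_of_neg_of_neg (by linarith) (by linarith)
      · exact mul_pos (by linarith) (by linarith)
    have key : (t - s) * ((m - x) * q.eval m * (a m * ((m - x) * q.eval m) +
        w s * ((s - x) * q.eval s))) = (q.eval m) ^ 2 * ((t - x) * (a m * ((m - s) * (m - x))) +
          (x - s) * ((a m - w m) * ((m - t) * (m - x)))) := by
      linear_combination (-(m - x) * q.eval m * (s - x)) * e1
    have c1 : 0 < (t - x) * (a m * ((m - s) * (m - x))) +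
        (x - s) * ((a m - w m) * ((m - t) * (m - x))) := by
      have d1 := mul_pos a1 b1
      have d2 := mul_pos a2 b2
      rcases hsx.eq_or_lt with h | h
      · have : 0 < t - x := by linarith
        have := mul_pos this d1
        have := mul_nonneg (sub_nonneg.2 hsx) d2.le
        linarith
      · have := mul_pos (sub_pos.2 h) d2
        have := mul_nonneg (sub_nonneg.2 hxt) d1.le
        linarith
    have c2 : 0 < (q.eval m) ^ 2 := by positivity
    have c3 := mul_pos c2 c1
    rw [← key] at c3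
    exact (mul_pos_iff_of_pos_left hts).1 c3

lemma inv_prod_ge {B : Finset ℝ} {x : ℝ → ℝ} (h : ∀ u ∈ B, 0 < x u) :
    1 - ∑ u ∈ B, (x u - 1) ≤ (∏ u ∈ B, x u)⁻¹ := by
  have h1 := Real.one_sub_inv_le_log_of_pos (prod_pos h)
  rw [Real.log_prod (fun u hu => (h u hu).ne')] at h1
  have h2 : ∑ u ∈ B, Real.log (x u) ≤ ∑ u ∈ B, (x u - 1) :=
    sum_le_sum fun u hu => Real.log_le_sub_one_of_pos (h u hu)
  linarith

/-- the weight of a node is at most the sum of the weights of its two neighbours -/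
lemma convex_weights {d : ℕ} {B : Finset ℝ} (hB : B.card + 1 ≤ d) {l s r : ℝ} (hls : l < s)
    (hsr : s < r) (hout : ∀ u ∈ B, u < l ∨ r < u) {w : ℝ → ℝ}
    (hann : ∀ p : ℝ[X], p.natDegree ≤ d →
      w l * p.eval l + w s * p.eval s + w r * p.eval r + ∑ u ∈ B, w u * p.eval u = 0)
    (hs : w s < 0) : -w s ≤ w l + w r := by
  have hz : ∀ y, ∑ u ∈ B, w u * ((X - C y) * nod B).eval u = 0 :=
    fun y => sum_eq_zero fun u hu => by simp [nod_zero hu]
  have e1 := hann _ ((lin_nod_natDegree B r).trans hB)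
  have e2 := hann _ ((lin_nod_natDegree B l).trans hB)
  rw [hz] at e1 e2
  simp only [eval_mul, eval_sub, eval_X, eval_C, sub_self, zero_mul, mul_zero, add_zero, zero_add,
    nod_eval] at e1 e2
  have hsu : ∀ u ∈ B, s - u ≠ 0 := fun u hu h => by rcases hout u hu with h' | h' <;> linarith
  have hx : ∀ u ∈ B, 0 < (l - u) / (s - u) := fun u hu => by
    rcases hout u hu with h | h
    · exact div_pos (by linarith) (by linarith)
    · exact div_pos_of_neg_of_neg (by linarith) (by linarith)
  have hy : ∀ u ∈ B, 0 < (r - u) / (s - u) := fun u hu => by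
    rcases hout u hu with h | h
    · exact div_pos (by linarith) (by linarith)
    · exact div_pos_of_neg_of_neg (by linarith) (by linarith)
  have i1 := inv_prod_ge hx
  have i2 := inv_prod_ge hy
  have p1 := prod_pos hx
  have p2 := prod_pos hy
  have hP : ∏ u ∈ B, (s - u) ≠ 0 := prod_ne_zero_iff.2 hsu
  have q1 : ∏ u ∈ B, (l - u) = (∏ u ∈ B, (l - u) / (s - u)) * ∏ u ∈ B, (s - u) := by
    rw [prod_div_distrib, div_mul_cancel₀ _ hP]
  have q2 : ∏ u ∈ B, (r - u) = (∏ u ∈ B, (r - u) / (s - u)) * ∏ u ∈ B, (s - u) := by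
    rw [prod_div_distrib, div_mul_cancel₀ _ hP]
  have hsum : (r - s) * ∑ u ∈ B, ((l - u) / (s - u) - 1) +
      (s - l) * ∑ u ∈ B, ((r - u) / (s - u) - 1) = 0 := by
    rw [mul_sum, mul_sum, ← sum_add_distrib]
    refine sum_eq_zero fun u hu => ?_
    have := hsu u hu
    field_simp; ring
  set X1 := ∏ u ∈ B, (l - u) / (s - u)
  set X2 := ∏ u ∈ B, (r - u) / (s - u)
  set P := ∏ u ∈ B, (s - u)
  rw [q1] at e1
  rw [q2] at e2
  have f1 : w l * (r - l) = -w s * ((r - s) * X1⁻¹) := by
    have : w l * (r - l) * X1 = -w s * (r - s) := mul_right_cancel₀ hP (by linear_combination -e1)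
    field_simp; linear_combination this
  have f2 : w r * (r - l) = -w s * ((s - l) * X2⁻¹) := by
    have : w r * (r - l) * X2 = -w s * (s - l) := mul_right_cancel₀ hP (by linear_combination e2)
    field_simp; linear_combination this
  have g1 := mul_le_mul_of_nonneg_left i1 (show 0 ≤ r - s by linarith)
  have g2 := mul_le_mul_of_nonneg_left i2 (show 0 ≤ s - l by linarith)
  have g3 : r - l ≤ (r - s) * X1⁻¹ + (s - l) * X2⁻¹ := by linarith
  have g4 := mul_le_mul_of_nonneg_left g3 (show 0 ≤ -w s by linarith)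
  have g5 : -w s * (r - l) ≤ (w l + w r) * (r - l) := by linarith
  exact le_of_mul_le_mul_right g5 (by linarith)

end Pool.Agent.H.MP_830f5a_co
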