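import Pool.Agent.H.MP_830f5a_co.B

/-! If one direction illuminates two vertices, their parameters are close. -/

namespace Pool.Agent.H.MP_830f5a_co
open Finset Polynomial Filter Topology

def Ann (d : ℕ) (s t : ℝ) (V : Finset ℝ) (w : ℝ → ℝ) : Prop :=
  ∀ p : ℝ[X], p.natDegree ≤ d → w s * p.eval s + w t * p.eval t + ∑ u ∈ V, w u * p.eval u = 0

def Dom (d : ℕ) (s t : ℝ) (V : Finset ℝ) : Prop :=
  ∃ w : ℝ → ℝ, Ann d s t V w ∧ ∑ u ∈ V, max (-w u) 0 < w t

lemma dom_of_illum {d : ℕ} {T : Finset ℝ} {s t : ℝ} (hs : s ∈ T) (ht : t ∈ T) (hst : s ≠ t)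
    {v : E d} (h1 : Illuminates (cyclic d T) v (moment d s))
    (h2 : Illuminates (cyclic d T) v (moment d t)) : Dom d s t ((T.erase s).erase t) := by
  obtain ⟨r1, hr1, h1⟩ := h1
  obtain ⟨r2, hr2, h2⟩ := h2
  have shrink : ∀ {x : ℝ} {r : ℝ}, x ∈ T → 0 < r → min r1 r2 ≤ r →
      moment d x + r • v ∈ interior (cyclic d T) →
      moment d x + min r1 r2 • v ∈ interior (cyclic d T) := by
    intro x r hx hr hle h
    have := (convex_cyclic d T).add_smul_mem_interior (moment_mem hx) h
      (t := min r1 r2 / r) ⟨div_pos (lt_min hr1 hr2) hr, (div_le_one hr).2 hle⟩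
    rwa [smul_smul, div_mul_cancel₀ _ hr.ne'] at this
  have k1 := shrink hs hr1 (min_le_left _ _) h1
  have k2 := shrink ht hr2 (min_le_right _ _) h2
  obtain ⟨η, hη, k3⟩ := interior_move k1 (moment d s - moment d t)
  obtain ⟨μ, m1, m2, m3⟩ := exists_weights k3
  obtain ⟨ν, n1, n2, n3⟩ := exists_weights (interior_subset k2)
  have hT : ∀ f : ℝ → ℝ, ∑ u ∈ T, f u = f s + f t + ∑ u ∈ (T.erase s).erase t, f u := by
    intro f
    rw [← add_sum_erase _ _ hs, ← add_sum_erase _ _ (mem_erase.2 ⟨hst.symm, ht⟩), add_assoc]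
  have hO : ∀ u ∈ (T.erase s).erase t, u ≠ s ∧ u ≠ t := fun u hu =>
    ⟨(mem_erase.1 (mem_erase.1 hu).2).1, (mem_erase.1 hu).1⟩
  refine ⟨fun u => μ u - ν u + (if u = t then 1 + η else 0) - (if u = s then 1 + η else 0), ?_, ?_⟩
  · intro p hp
    have e : ∀ (κ : ℝ → ℝ), ∑ x ∈ T, κ x = 1 → lin d (∑ x ∈ T, κ x • moment d x) p =
        ∑ x ∈ T, κ x * p.eval x - p.coeff 0 := by
      intro κ hκ
      rw [map_sum, LinearMap.sum_apply]
      have : p.coeff 0 = ∑ x ∈ T, κ x * p.coeff 0 := by rw [← sum_mul, hκ, one_mul]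
      rw [this, ← sum_sub_distrib]
      refine sum_congr rfl fun x _ => ?_
      rw [map_smul, LinearMap.smul_apply, lin_moment hp, smul_eq_mul]; ring
    have e1 := e μ m2
    have e2 := e ν n2
    rw [m3, hT] at e1
    rw [n3, hT] at e2
    simp only [map_add, map_smul, map_sub, LinearMap.add_apply, LinearMap.smul_apply,
      LinearMap.sub_apply, lin_moment hp, smul_eq_mul] at e1 e2
    have e3 : ∑ u ∈ (T.erase s).erase t, (μ u - ν u + (if u = t then 1 + η else 0) -
        (if u = s then 1 + η else 0)) * p.eval u = ∑ u ∈ (T.erase s).erase t, μ u * p.eval u -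
        ∑ u ∈ (T.erase s).erase t, ν u * p.eval u := by
      rw [← sum_sub_distrib]
      refine sum_congr rfl fun u hu => ?_
      rw [if_neg (hO u hu).1, if_neg (hO u hu).2]; ring
    simp only [e3, if_neg hst, if_neg hst.symm, if_true]
    linear_combination e2 - e1
  · have e3 : ∑ u ∈ (T.erase s).erase t, max (-(μ u - ν u + (if u = t then 1 + η else 0) -
        (if u = s then 1 + η else 0))) 0 ≤ ∑ u ∈ (T.erase s).erase t, ν u := by
      refine sum_le_sum fun u hu => ?_
      rw [if_neg (hO u hu).1, if_neg (hO u hu).2]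
      have := m1 u
      exact max_le (by linarith) (n1 u)
    rw [hT] at n2
    simp only [if_neg hst.symm, if_true]
    have := n1 s
    have := m1 t
    linarith

lemma dom_erase {d : ℕ} {s t : ℝ} {V : Finset ℝ} {w : ℝ → ℝ} (h : Ann d s t V w)
    (hG : ∑ u ∈ V, max (-w u) 0 < w t) {m : ℝ} (hm : m ∈ V) (h0 : w m = 0) :
    Dom d s t (V.erase m) := by
  refine ⟨w, fun p hp => ?_, ?_⟩
  · have := h p hp
    rwa [← add_sum_erase _ _ hm, h0, zero_mul, zero_add] at this
  · rwa [← add_sum_erase _ _ hm, h0, neg_zero, max_self, zero_add] at hG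

lemma dom_reduce {d : ℕ} (hd : 1 ≤ d) {s t : ℝ} (hst : s ≠ t) {V : Finset ℝ} (hs : s ∉ V)
    (ht : t ∉ V) (hV : d + 1 ≤ V.card) (h : Dom d s t V) : ∃ m ∈ V, Dom d s t (V.erase m) := by
  obtain ⟨w, hw, hG⟩ := h
  have hG0 : 0 ≤ ∑ u ∈ V, max (-w u) 0 := sum_nonneg fun u _ => le_max_right _ _
  obtain ⟨V', hV'V, hV'⟩ := exists_subset_card_eq hV
  have hs' : s ∉ V' := fun h => hs (hV'V h)
  set y : ℝ → ℝ := fun u => if u ∈ insert s V' then lam (insert s V') u else 0 with hy
  have ht' : t ∉ V' := fun h => ht (hV'V h)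
  have hyt : y t = 0 := if_neg (by simp [hst.symm, ht'])
  have hyann : Ann d s t V y := by
    intro p hp
    have := ann_lam (U := insert s V') (d := d) (by rw [card_insert_of_notMem hs', hV']) hp
    rw [sum_insert hs'] at this
    rw [hyt, zero_mul, add_zero, ← this]
    congr 1
    · simp [hy]
    · symm
      refine (sum_congr rfl fun u hu => ?_).trans (sum_subset hV'V fun u hu hu' => ?_)
      · simp [hy, hu]
      · have : u ≠ s := fun h => hs (h ▸ hu)
        simp [hy, hu', this]
  set L : (ℝ → ℝ) → ℝ := fun z => z t - ∑ u ∈ V, (if w u < 0 then -z u else 0) with hL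
  have hLw : L w = w t - ∑ u ∈ V, max (-w u) 0 := by
    simp only [hL]
    congr 1
    refine sum_congr rfl fun u _ => ?_
    split_ifs with h
    · rw [max_eq_left (by linarith)]
    · rw [max_eq_right (by linarith)]
  have hLpos : 0 < L w := by linarith
  have hLlin : ∀ (z z' : ℝ → ℝ) (c : ℝ), L (fun u => z u + c * z' u) = L z + c * L z' := by
    intro z z' c
    simp only [hL]
    have : ∑ u ∈ V, (if w u < 0 then -(z u + c * z' u) else 0) =
        ∑ u ∈ V, (if w u < 0 then -z u else 0) + c * ∑ u ∈ V, (if w u < 0 then -z' u else 0) := by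
      rw [mul_sum, ← sum_add_distrib]
      refine sum_congr rfl fun u _ => ?_
      split_ifs <;> ring
    rw [this]; ring
  have hAlin : ∀ (z z' : ℝ → ℝ) (c : ℝ), Ann d s t V z → Ann d s t V z' →
      Ann d s t V (fun u => z u + c * z' u) := by
    intro z z' c h1 h2 p hp
    have : ∑ u ∈ V, (z u + c * z' u) * p.eval u =
        ∑ u ∈ V, z u * p.eval u + c * ∑ u ∈ V, z' u * p.eval u := by
      rw [mul_sum, ← sum_add_distrib]
      exact sum_congr rfl fun u _ => by ring
    rw [this]
    linear_combination h1 p hp + c * h2 p hp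
  set β := -(L y / L w) with hβ
  set z : ℝ → ℝ := fun u => y u + β * w u with hz
  have hzann : Ann d s t V z := hAlin y w β hyann hw
  have hLz : L z = 0 := by
    rw [hz, hLlin, hβ]; field_simp; ring
  have hne : (V.filter fun u => z u ≠ 0).Nonempty := by
    by_contra hcon
    rw [not_nonempty_iff_eq_empty, filter_eq_empty_iff] at hcon
    have h0 : ∀ u ∈ V, z u = 0 := fun u hu => not_not.1 (hcon hu)
    have h1 := hzann (X - C s) (by rw [natDegree_X_sub_C]; exact hd)
    rw [sum_eq_zero (fun u hu => by rw [h0 u hu, zero_mul])] at h1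
    simp only [eval_sub, eval_X, eval_C, sub_self, mul_zero, zero_add, add_zero] at h1
    have h2 : z t = 0 := (mul_eq_zero.1 h1).resolve_right (sub_ne_zero.2 hst.symm)
    simp only [hz, hyt, zero_add] at h2
    have h3 : β = 0 := (mul_eq_zero.1 h2).resolve_right (by linarith)
    obtain ⟨m, hm⟩ : V'.Nonempty := card_pos.1 (by omega)
    have h4 := h0 m (hV'V hm)
    simp only [hz, h3, zero_mul, add_zero, hy, mem_insert, hm, or_true, if_true] at h4
    exact lam_ne _ _ h4
  obtain ⟨m, hm, hmin⟩ := exists_min_image _ (fun u => |w u / z u|) hne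
  obtain ⟨hmV, hzm⟩ := mem_filter.1 hm
  set τ := -(w m / z m) with hτ
  have hsmall : ∀ u ∈ V, |τ * z u| ≤ |w u| := by
    intro u hu
    by_cases h : z u = 0
    · simp [h]
    · have := hmin u (mem_filter.2 ⟨hu, h⟩)
      rw [abs_mul, hτ, abs_neg]
      rwa [abs_div (w u), le_div_iff₀ (abs_pos.2 h)] at this
  refine ⟨m, hmV, dom_erase (w := fun u => w u + τ * z u) (hAlin w z τ hw hzann) ?_ hmV ?_⟩
  · have h1 := hLlin w z τ
    rw [hLz, mul_zero, add_zero] at h1
    have h2 : ∑ u ∈ V, max (-(w u + τ * z u)) 0 =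
        ∑ u ∈ V, (if w u < 0 then -(w u + τ * z u) else 0) := by
      refine sum_congr rfl fun u hu => ?_
      have := abs_le.1 (hsmall u hu)
      split_ifs with h
      · rw [abs_of_neg h] at this
        exact max_eq_left (by linarith)
      · rw [abs_of_nonneg (not_lt.1 h)] at this
        exact max_eq_right (by linarith)
    rw [h2]
    simp only [hL] at h1 hLpos
    linarith
  · simp only [hτ]; field_simp; ring

lemma dom_card {d : ℕ} {s t : ℝ} (hst : s ≠ t) {V : Finset ℝ} (ht : t ∉ V) (h : Dom d s t V) :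
    d ≤ V.card := by
  obtain ⟨w, hw, hG⟩ := h
  have hG0 : 0 ≤ ∑ u ∈ V, max (-w u) 0 := sum_nonneg fun u _ => le_max_right _ _
  by_contra hlt
  have h1 := hw _ ((lin_nod_natDegree V s).trans (by omega))
  rw [sum_eq_zero (fun u hu => by simp [nod_zero hu])] at h1
  simp only [eval_mul, eval_sub, eval_X, eval_C, sub_self, zero_mul, mul_zero, add_zero, zero_add,
    nod_eval] at h1
  exact mul_ne_zero (by linarith) (mul_ne_zero (sub_ne_zero.2 hst.symm) (prod_sub_ne ht)) h1

lemma dom_exact {d : ℕ} (hd : 1 ≤ d) {s t : ℝ} (hst : s ≠ t) (n : ℕ) : ∀ {V : Finset ℝ},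
    V.card = n → s ∉ V → t ∉ V → Dom d s t V → ∃ V' ⊆ V, V'.card = d ∧ Dom d s t V' := by
  induction n with
  | zero =>
    intro V hV _ ht h
    have := dom_card hst ht h
    omega
  | succ n ih =>
    intro V hV hs ht h
    rcases (dom_card hst ht h).eq_or_lt with h1 | h1
    · exact ⟨V, subset_rfl, h1.symm, h⟩
    · obtain ⟨m, hm, h2⟩ := dom_reduce hd hst hs ht h1 h
      obtain ⟨V', a1, a2, a3⟩ := ih (V := V.erase m) (by rw [card_erase_of_mem hm]; omega)
        (fun h => hs (mem_of_mem_erase h)) (fun h => ht (mem_of_mem_erase h)) h2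
      exact ⟨V', a1.trans (erase_subset _ _), a2, a3⟩

lemma neighbours {d : ℕ} {s t : ℝ} {V : Finset ℝ} (hV : V.card = d) (ht : t ∉ V) {w : ℝ → ℝ}
    (hw : Ann d s t V w) (hs : w s < 0) {l r : ℝ} (hl : l ∈ V) (hr : r ∈ V) (hls : l < s)
    (hsr : s < r) (hout : ∀ u ∈ insert t V, u ≤ l ∨ r ≤ u) : -w s ≤ ∑ u ∈ V, max (w u) 0 := by
  have hrl : r ∈ V.erase l := mem_erase.2 ⟨by linarith [hls.trans hsr |>.ne'] , hr⟩
  have ht' : t ∉ (V.erase l).erase r := fun h => ht (mem_of_mem_erase (mem_of_mem_erase h))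
  have hsum : ∀ f : ℝ → ℝ, ∑ u ∈ V, f u = f l + f r + ∑ u ∈ (V.erase l).erase r, f u := by
    intro f
    rw [← add_sum_erase _ _ hl, ← add_sum_erase _ _ hrl, add_assoc]
  have h1 := convex_weights (d := d) (B := insert t ((V.erase l).erase r)) (by
      have := card_pos.2 ⟨r, hrl⟩
      rw [card_insert_of_notMem ht', card_erase_of_mem hrl]
      rw [card_erase_of_mem hl] at this ⊢
      omega) hls hsr (w := w) (by
      intro u hu
      have h2 : u ∈ insert t V ∧ u ≠ l ∧ u ≠ r := by
        rcases mem_insert.1 hu with rfl | hu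
        · exact ⟨mem_insert_self _ _, fun h => ht (h ▸ hl), fun h => ht (h ▸ hr)⟩
        · exact ⟨mem_insert_of_mem (mem_of_mem_erase (mem_of_mem_erase hu)),
            (mem_erase.1 (mem_of_mem_erase hu)).1, (mem_erase.1 hu).1⟩
      rcases hout u h2.1 with h | h
      · exact Or.inl (lt_of_le_of_ne h h2.2.1)
      · exact Or.inr (lt_of_le_of_ne h h2.2.2.symm)) (by
      intro p hp
      have := hw p hp
      rw [hsum] at this
      rw [sum_insert ht']
      linarith) hs
  rw [hsum]
  have := le_max_left (w l) 0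
  have := le_max_left (w r) 0
  have : 0 ≤ ∑ u ∈ (V.erase l).erase r, max (w u) 0 := sum_nonneg fun u _ => le_max_right _ _
  linarith

lemma dom_close {d : ℕ} (hd : 1 ≤ d) {T : Finset ℝ} {s t : ℝ} (hst : s < t) {V : Finset ℝ}
    (hVT : V ⊆ T) (hV : V.card = d) (hs : s ∉ V) (ht : t ∉ V) (h : Dom d s t V) :
    Close d T s t := by
  obtain ⟨w, hw, hG⟩ := h
  have hG0 : 0 ≤ ∑ u ∈ V, max (-w u) 0 := sum_nonneg fun u _ => le_max_right _ _
  have hG1 : 0 ≤ ∑ u ∈ V, max (w u) 0 := sum_nonneg fun u _ => le_max_right _ _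
  have h2 := hw 1 (by simp)
  simp only [eval_one, mul_one] at h2
  have h3 : ∑ u ∈ V, max (w u) 0 = ∑ u ∈ V, w u + ∑ u ∈ V, max (-w u) 0 := by
    rw [← sum_add_distrib]
    refine sum_congr rfl fun u _ => ?_
    rcases le_total (w u) 0 with h | h
    · rw [max_eq_right h, max_eq_left (by linarith)]; ring
    · rw [max_eq_left h, max_eq_right (by linarith)]; ring
  have h4 : ∑ u ∈ V, |w u| = ∑ u ∈ V, max (w u) 0 + ∑ u ∈ V, max (-w u) 0 := by
    rw [← sum_add_distrib]
    refine sum_congr rfl fun u _ => ?_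
    rcases le_total (w u) 0 with h | h
    · rw [max_eq_right h, max_eq_left (by linarith), abs_of_nonpos h]; ring
    · rw [max_eq_left h, max_eq_right (by linarith), abs_of_nonneg h]; ring
  have hG' : ∑ u ∈ V, max (w u) 0 < -w s := by linarith
  refine ⟨V, hVT, hV, ?_, ?_⟩
  · intro v hv
    by_contra hcon
    push Not at hcon
    have hsv : s < v := lt_of_le_of_ne hcon.1 fun h => hs (h ▸ hv)
    have hvt : v < t := lt_of_le_of_ne hcon.2 fun h => ht (h ▸ hv)
    by_cases c1 : (V.filter fun u => u < s).Nonempty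
    · obtain ⟨l, hl, hlmax⟩ := exists_max_image _ id c1
      obtain ⟨r, hr, hrmin⟩ := exists_min_image (V.filter fun u => s < u) id
        ⟨v, mem_filter.2 ⟨hv, hsv⟩⟩
      obtain ⟨hl1, hl2⟩ := mem_filter.1 hl
      obtain ⟨hr1, hr2⟩ := mem_filter.1 hr
      have := neighbours hV ht hw (by linarith) hl1 hr1 hl2 hr2 (by
        intro u hu
        rcases mem_insert.1 hu with rfl | hu
        · exact Or.inr ((hrmin v (mem_filter.2 ⟨hv, hsv⟩)).trans hvt.le)
        · rcases lt_or_gt_of_ne (fun h : u = s => hs (h ▸ hu)) with h | h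
          · exact Or.inl (hlmax u (mem_filter.2 ⟨hu, h⟩))
          · exact Or.inr (hrmin u (mem_filter.2 ⟨hu, h⟩)))
      linarith
    by_cases c2 : (V.filter fun u => t < u).Nonempty
    · obtain ⟨r, hr, hrmin⟩ := exists_min_image _ id c2
      obtain ⟨l, hl, hlmax⟩ := exists_max_image (V.filter fun u => u < t) id
        ⟨v, mem_filter.2 ⟨hv, hvt⟩⟩
      obtain ⟨hl1, hl2⟩ := mem_filter.1 hl
      obtain ⟨hr1, hr2⟩ := mem_filter.1 hr
      have hw' : Ann d t s V (fun u => -w u) := by
        intro p hp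
        have := hw p hp
        simp only [neg_mul, sum_neg_distrib]
        linarith
      have := neighbours hV hs hw' (by linarith) hl1 hr1 hl2 hr2 (by
        intro u hu
        rcases mem_insert.1 hu with rfl | hu
        · exact Or.inl (hsv.le.trans (hlmax v (mem_filter.2 ⟨hv, hvt⟩)))
        · rcases lt_or_gt_of_ne (fun h : u = t => ht (h ▸ hu)) with h | h
          · exact Or.inl (hlmax u (mem_filter.2 ⟨hu, h⟩))
          · exact Or.inr (hrmin u (mem_filter.2 ⟨hu, h⟩)))
      linarith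
    rw [not_nonempty_iff_eq_empty, filter_eq_empty_iff] at c1 c2
    have h1 := hw (X - C s) (by rw [natDegree_X_sub_C]; exact hd)
    simp only [eval_sub, eval_X, eval_C, sub_self, mul_zero, zero_add] at h1
    have h5 : -((∑ u ∈ V, max (-w u) 0) * (t - s)) ≤ ∑ u ∈ V, w u * (u - s) := by
      rw [sum_mul, ← sum_neg_distrib]
      refine sum_le_sum fun u hu => ?_
      have a1 := not_lt.1 (c1 hu)
      have a2 := not_lt.1 (c2 hu)
      have a3 := le_max_left (-w u) 0
      have a4 := le_max_right (-w u) 0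
      nlinarith
    have := mul_lt_mul_of_pos_right hG (sub_pos.2 hst)
    linarith
  · set U := insert s (insert t V) with hU
    have hcard : U.card = d + 2 := by rw [hU, card_U hst.ne hs ht, hV]
    have htU : t ∈ U := by simp [hU]
    set κ := w t / lam U t with hκ
    have hprop : ∀ j ∈ U, w j = κ * lam U j := by
      intro j hj
      by_cases hjt : j = t
      · rw [hjt, hκ, div_mul_cancel₀ _ (lam_ne U t)]
      have htj : t ∈ U.erase j := mem_erase.2 ⟨Ne.symm hjt, htU⟩
      have hdeg : (nod ((U.erase j).erase t)).natDegree ≤ d := by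
        rw [nod_natDegree, card_erase_of_mem htj, card_erase_of_mem hj, hcard]; omega
      have e1 := hw _ hdeg
      rw [← sum_U hst.ne hs ht (fun u => w u * (nod ((U.erase j).erase t)).eval u), ← hU] at e1
      have e2 := ann_lam hcard hdeg
      have e3 : ∀ f : ℝ → ℝ, ∑ u ∈ U, f u * (nod ((U.erase j).erase t)).eval u =
          f j * (nod ((U.erase j).erase t)).eval j + f t * (nod ((U.erase j).erase t)).eval t := by
        intro f
        rw [← add_sum_erase _ _ hj, ← add_sum_erase _ _ htj,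
          sum_eq_zero (fun u hu => by rw [nod_zero hu, mul_zero]), add_zero]
      rw [e3] at e1 e2
      have e4 : (nod ((U.erase j).erase t)).eval j ≠ 0 := by
        rw [nod_eval]
        exact prod_sub_ne fun h => notMem_erase _ _ (mem_of_mem_erase h)
      have e5 : w t = κ * lam U t := by rw [hκ, div_mul_cancel₀ _ (lam_ne U t)]
      refine mul_right_cancel₀ e4 ?_
      rw [e5] at e1
      linear_combination e1 - κ * e2
    have habs : ∀ j ∈ U, |w j| = |κ| * wt U j := fun j hj => by rw [hprop j hj, abs_mul, abs_lam]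
    have h5 : |κ| * ∑ u ∈ V, wt U u < |κ| * (wt U s + wt U t) := by
      rw [mul_sum, mul_add, ← habs s (by simp [hU]), ← habs t htU,
        ← sum_congr rfl fun u hu => habs u (by simp [hU, hu])]
      have := neg_le_abs (w s)
      have := le_abs_self (w t)
      linarith
    exact lt_of_mul_lt_mul_left h5 (abs_nonneg _)

lemma illum_close {d : ℕ} (hd : 1 ≤ d) {T : Finset ℝ} {s t : ℝ} (hs : s ∈ T) (ht : t ∈ T)
    (hst : s < t) {v : E d} (h1 : Illuminates (cyclic d T) v (moment d s))
    (h2 : Illuminates (cyclic d T) v (moment d t)) : Close d T s t := by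
  have a1 : s ∉ (T.erase s).erase t := fun h => notMem_erase _ _ (mem_of_mem_erase h)
  have a2 : t ∉ (T.erase s).erase t := notMem_erase _ _
  obtain ⟨V, b1, b2, b3⟩ := dom_exact hd hst.ne _ rfl a1 a2 (dom_of_illum hs ht hst.ne h1 h2)
  exact dom_close hd hst (b1.trans ((erase_subset _ _).trans (erase_subset _ _))) b2
    (fun h => a1 (b1 h)) (fun h => a2 (b1 h)) b3

lemma close_mono {d : ℕ} (hd : 1 ≤ d) {T : Finset ℝ} {s t x : ℝ} (hs : s ∈ T) (hx : x ∈ T)
    (hsx : s < x) (hxt : x ≤ t) (h : Close d T s t) : Close d T s x := by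
  obtain ⟨v, hv⟩ := close_illum hd (hsx.trans_le hxt) h
  exact illum_close hd hs hx hsx (hv s hs le_rfl (hsx.le.trans hxt)) (hv x hx hsx.le hxt)

end Pool.Agent.H.MP_830f5a_co
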