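import Pool.Agent.H.MP_830f5a_co.C

/-! The greedy formula and the bounds `d + 1` and `2 d - 1`. -/

namespace Pool.Agent.H.MP_830f5a_co
open Finset Polynomial Filter Topology

lemma anchors_spec (c : ℝ → ℝ → Prop) (T : Finset ℝ)
    (hmono : ∀ s ∈ T, ∀ x ∈ T, ∀ t, s < x → x ≤ t → c s t → c s x) (xs : List ℝ) :
    ∀ a : ℝ, (a :: xs).Pairwise (· < ·) → (∀ x ∈ a :: xs, x ∈ T) →
      ∃ A : Finset ℝ, A.card = anchors c a xs ∧ a ∈ A ∧ (∀ y ∈ A, y ∈ a :: xs) ∧
        (∀ s ∈ A, ∀ t ∈ A, s < t → ¬ c s t) ∧ ∀ x ∈ a :: xs, ∃ b ∈ A, b = x ∨ (b < x ∧ c b x) := by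
  induction xs with
  | nil =>
    intro a _ _
    refine ⟨{a}, by simp [anchors], by simp, by simp, ?_, by simp⟩
    intro s hs t ht hst
    rw [mem_singleton.1 hs, mem_singleton.1 ht] at hst
    exact absurd hst (lt_irrefl _)
  | cons x xs ih =>
    intro a hp hT
    obtain ⟨h1, h2⟩ := List.pairwise_cons.1 hp
    obtain ⟨h3, h4⟩ := List.pairwise_cons.1 h2
    have hax : a < x := h1 x (by simp)
    by_cases hc : c a x
    · obtain ⟨A, a1, a2, a3, a4, a5⟩ := ih a
        (List.pairwise_cons.2 ⟨fun y hy => h1 y (by simp [hy]), h4⟩)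
        (fun y hy => hT y (by
          rcases List.mem_cons.1 hy with h | h <;> simp [h]))
      refine ⟨A, by rw [a1, anchors, if_pos hc], a2, fun y hy => ?_, a4, fun y hy => ?_⟩
      · rcases List.mem_cons.1 (a3 y hy) with h | h <;> simp [h]
      · rcases List.mem_cons.1 hy with h | h
        · exact a5 y (by simp [h])
        · rcases List.mem_cons.1 h with h | h
          · exact ⟨a, a2, Or.inr (h ▸ ⟨hax, hc⟩)⟩
          · exact a5 y (by simp [h])
    · obtain ⟨A, a1, a2, a3, a4, a5⟩ := ih x h2 (fun y hy => hT y (List.mem_cons_of_mem _ hy))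
      have hge : ∀ y ∈ A, x ≤ y := fun y hy => by
        rcases List.mem_cons.1 (a3 y hy) with h | h
        · exact h.ge
        · exact (h3 y h).le
      have haA : a ∉ A := fun h => absurd (hge a h) (not_le.2 hax)
      refine ⟨insert a A, by rw [card_insert_of_notMem haA, a1, anchors, if_neg hc],
        mem_insert_self _ _, fun y hy => ?_, fun s hs t ht hst => ?_, fun y hy => ?_⟩
      · rcases mem_insert.1 hy with h | h
        · simp [h]
        · exact List.mem_cons_of_mem _ (a3 y h)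
      · rcases mem_insert.1 ht with ht' | ht'
        · rcases mem_insert.1 hs with hs' | hs'
          · linarith
          · linarith [hge s hs']
        · rcases mem_insert.1 hs with hs' | hs'
          · rw [hs']
            exact fun h => hc (hmono a (hT a (by simp)) x (hT x (by simp)) t hax (hge t ht') h)
          · exact a4 s hs' t ht' hst
      · rcases List.mem_cons.1 hy with h | h
        · exact ⟨a, mem_insert_self _ _, Or.inl h.symm⟩
        · obtain ⟨b, hb, h'⟩ := a5 y h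
          exact ⟨b, mem_insert_of_mem hb, h'⟩

lemma greedy_spec {d : ℕ} (hd : 1 ≤ d) (T : Finset ℝ) :
    ∃ A ⊆ T, A.card = greedy d T ∧ (∀ s ∈ A, ∀ t ∈ A, s < t → ¬ Close d T s t) ∧
      ∀ x ∈ T, ∃ b ∈ A, b = x ∨ (b < x ∧ Close d T b x) := by
  have hmem : ∀ x, x ∈ T.sort (fun a b => a ≤ b) ↔ x ∈ T := fun x => mem_sort _
  have hpw : (T.sort (fun a b => a ≤ b)).Pairwise (· < ·) := (sortedLT_sort T).pairwise
  rw [greedy]
  generalize T.sort (fun a b => a ≤ b) = l at hmem hpw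
  cases l with
  | nil => exact ⟨∅, empty_subset _, rfl, by simp, fun x hx => by simpa using (hmem x).2 hx⟩
  | cons a xs =>
    obtain ⟨A, a1, -, a3, a4, a5⟩ := anchors_spec (Close d T) T
      (fun s hs x hx t h1 h2 h3 => close_mono hd hs hx h1 h2 h3) xs a hpw (fun x hx => (hmem x).1 hx)
    exact ⟨A, fun y hy => (hmem y).1 (a3 y hy), a1, a4, fun x hx => a5 x ((hmem x).2 hx)⟩

lemma single_illum {d : ℕ} {T : Finset ℝ} (hT : d + 1 ≤ T.card) {x : ℝ} (hx : x ∈ T) :
    ∃ v : E d, Illuminates (cyclic d T) v (moment d x) := by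
  obtain ⟨V, hV1, hV⟩ := exists_subset_card_eq (s := T.erase x) (n := d)
    (by rw [card_erase_of_mem hx]; omega)
  have hxV : x ∉ V := fun h => notMem_erase _ _ (hV1 h)
  refine ⟨∑ u ∈ V, (moment d u - moment d x),
    illum_of_polys (hV1.trans (erase_subset _ _)) hV hx hxV fun m hm => ?_⟩
  set q := nod (V.erase m) with hq
  have hdeg : ((X - C x) * q).natDegree ≤ d := by
    have := lin_nod_natDegree (V.erase m) x
    have h0 := card_pos.2 ⟨m, hm⟩
    rw [card_erase_of_mem hm, hV] at this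
    exact this.trans (by omega)
  have hq0 : ∀ u ∈ V, u ≠ m → q.eval u = 0 := fun u hu hum => nod_zero (mem_erase.2 ⟨hum, hu⟩)
  have hqm : q.eval m ≠ 0 := by rw [hq, nod_eval]; exact prod_sub_ne (notMem_erase _ _)
  have hmx : m - x ≠ 0 := fun h => hxV (by rw [← sub_eq_zero.1 h]; exact hm)
  have hpos := mul_self_pos.2 (mul_ne_zero hmx hqm)
  refine ⟨((m - x) * q.eval m) • ((X - C x) * q), (natDegree_smul_le _ _).trans hdeg, ?_, ?_, ?_, ?_⟩
  · simpa using hpos
  · simp
  · intro u hu hum; simp [hq0 u hu hum]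
  · rw [map_smul, map_sum, LinearMap.sum_apply, sum_eq_single m]
    · rw [map_sub, LinearMap.sub_apply, lin_moment hdeg, lin_moment hdeg]
      simpa using hpos
    · intro u hu hum
      rw [map_sub, LinearMap.sub_apply, lin_moment hdeg, lin_moment hdeg]
      simp [hq0 u hu hum]
    · intro h; exact absurd hm h

lemma illumBy_of_cover {d : ℕ} (hd : 2 ≤ d) {T A : Finset ℝ} (hT : d + 1 ≤ T.card) (hA : A ⊆ T)
    (h : ∀ x ∈ T, ∃ b ∈ A, b = x ∨ (b < x ∧ Close d T b x)) : IllumBy (cyclic d T) A.card := by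
  classical
  have : ∀ b : ℝ, ∃ v : E d, b ∈ T → Illuminates (cyclic d T) v (moment d b) ∧
      ∀ x ∈ T, b < x → Close d T b x → Illuminates (cyclic d T) v (moment d x) := by
    intro b
    by_cases hb : b ∈ T
    swap
    · exact ⟨0, fun h => absurd h hb⟩
    by_cases hne : (T.filter fun x => b < x ∧ Close d T b x).Nonempty
    · obtain ⟨r, hr, hmax⟩ := exists_max_image _ id hne
      obtain ⟨-, r1, r2⟩ := mem_filter.1 hr
      obtain ⟨v, hv⟩ := close_illum (by omega) r1 r2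
      exact ⟨v, fun _ => ⟨hv b hb le_rfl r1.le,
        fun x hx h1 h2 => hv x hx h1.le (hmax x (mem_filter.2 ⟨hx, h1, h2⟩))⟩⟩
    · obtain ⟨v, hv⟩ := single_illum hT hb
      exact ⟨v, fun _ => ⟨hv, fun x hx h1 h2 => absurd ⟨x, mem_filter.2 ⟨hx, h1, h2⟩⟩ hne⟩⟩
  choose v hv using this
  refine illumBy_of_vertices hd A v (fun a ha => ⟨a, hA ha, (hv a (hA ha)).1⟩) fun x hx => ?_
  obtain ⟨b, hb, rfl | ⟨h1, h2⟩⟩ := h x hx
  · exact ⟨b, hb, (hv b hx).1⟩
  · exact ⟨b, hb, (hv b (hA hb)).2 x hx h1 h2⟩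

lemma isLeast_greedy {d : ℕ} (hd : 2 ≤ d) {T : Finset ℝ} (hT : d + 1 ≤ T.card) :
    IsLeast {n | IllumBy (cyclic d T) n} (greedy d T) := by
  obtain ⟨A, a1, a2, a3, a4⟩ := greedy_spec (d := d) (by omega) T
  rw [← a2]
  exact ⟨illumBy_of_cover hd hT a1 a4, fun n hn => card_le_of_illumBy hd a1
    (fun s hs t ht hst v h1 h2 => a3 s hs t ht hst
      (illum_close (by omega) (a1 hs) (a1 ht) hst h1 h2)) hn⟩

lemma succ_le_of_illumBy {d : ℕ} (hd : 2 ≤ d) {T : Finset ℝ} (hT : T.Nonempty) {n : ℕ}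
    (hn : IllumBy (cyclic d T) n) : d + 1 ≤ n := by
  obtain ⟨v, -, hv⟩ := hn
  by_contra hlt
  set v' : ℕ → E d := fun i => if h : i < n then v ⟨i, h⟩ else 0 with hv'
  set Φ : (Fin d → ℝ) →ₗ[ℝ] (Fin (d - 1) → ℝ) :=
    { toFun := fun c i => ∑ j, c j * v' i j
      map_add' := fun a b => by ext i; simp [add_mul, sum_add_distrib]
      map_smul' := fun a b => by ext i; simp [mul_sum, mul_assoc] } with hΦ
  obtain ⟨c0, hc0, hc0ne⟩ := (Submodule.ne_bot_iff _).1
    (LinearMap.ker_ne_bot_of_finrank_lt (f := Φ) (by simp; omega))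
  have hz : ∀ i < d - 1, ∑ j, c0 j * v' i j = 0 := fun i hi => congrFun (LinearMap.mem_ker.1 hc0) ⟨i, hi⟩
  obtain ⟨c, hcne, hc⟩ : ∃ c : Fin d → ℝ, c ≠ 0 ∧ ∀ i < d, 0 ≤ ∑ j, c j * v' i j := by
    rcases le_total 0 (∑ j, c0 j * v' (d - 1) j) with h | h
    · refine ⟨c0, hc0ne, fun i hi => ?_⟩
      rcases Nat.lt_or_ge i (d - 1) with h' | h'
      · exact (hz i h').ge
      · obtain rfl : i = d - 1 := by omega
        exact h
    · refine ⟨-c0, neg_ne_zero.2 hc0ne, fun i hi => ?_⟩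
      simp only [Pi.neg_apply, neg_mul, sum_neg_distrib, neg_nonneg]
      rcases Nat.lt_or_ge i (d - 1) with h' | h'
      · exact (hz i h').le
      · obtain rfl : i = d - 1 := by omega
        exact h
  set p : ℝ[X] := ∑ j : Fin d, c j • X ^ (j.1 + 1) with hp
  have hdeg : p.natDegree ≤ d := by
    refine natDegree_sum_le_of_forall_le _ _ fun j _ => (natDegree_smul_le _ _).trans ?_
    rw [natDegree_X_pow]; omega
  have hlin : ∀ z : E d, lin d z p = ∑ j, c j * z j := by
    intro z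
    rw [hp, map_sum]
    exact sum_congr rfl fun j _ => by rw [map_smul, lin_X_pow, smul_eq_mul]
  obtain ⟨t, ht, hmax⟩ := exists_max_image T (fun x => p.eval x) hT
  obtain ⟨i, r, hr, h1⟩ := hv _ (moment_frontier hd ht)
  obtain ⟨η, hη, h2⟩ := interior_move h1 (WithLp.toLp 2 c)
  have h3 := lin_le hdeg hmax h2
  simp only [map_add, map_smul, LinearMap.add_apply, LinearMap.smul_apply, lin_moment hdeg,
    smul_eq_mul] at h3
  have h4 : 0 ≤ lin d (v i) p := by
    have := hc i (by omega)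
    simp only [hv', i.2, dif_pos] at this
    rwa [hlin]
  have h5 : 0 < lin d (WithLp.toLp 2 c) p := by
    rw [hlin]
    obtain ⟨j, hj⟩ := Function.ne_iff.1 hcne
    exact sum_pos' (fun j _ => mul_self_nonneg _) ⟨j, mem_univ _, mul_self_pos.2 hj⟩
  have := mul_nonneg hr.le h4
  have := mul_pos hη h5
  linarith

end Pool.Agent.H.MP_830f5a_co
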