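import Mathlib

/-! Definitions for the illumination number of cyclic polytopes. -/

namespace Pool.Agent.H.MP_830f5a_co
open Finset

/-- the moment curve `t ↦ (t, t^2, ..., t^d)` in Euclidean `d`-space -/
noncomputable def moment (d : ℕ) (t : ℝ) : EuclideanSpace ℝ (Fin d) :=
  WithLp.toLp 2 fun i : Fin d => t ^ (i.1 + 1)

/-- the cyclic polytope with parameter set `T` -/
def cyclic (d : ℕ) (T : Finset ℝ) : Set (EuclideanSpace ℝ (Fin d)) :=
  convexHull ℝ (moment d '' (T : Set ℝ))

/-- the direction `v` illuminates the point `q` of `K`: the open half-line meets the interior -/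
def Illuminates {d : ℕ} (K : Set (EuclideanSpace ℝ (Fin d))) (v q : EuclideanSpace ℝ (Fin d)) :
    Prop :=
  ∃ r : ℝ, 0 < r ∧ q + r • v ∈ interior K

/-- `n` unit vectors illuminate every boundary point of `K` -/
def IllumBy {d : ℕ} (K : Set (EuclideanSpace ℝ (Fin d))) (n : ℕ) : Prop :=
  ∃ v : Fin n → EuclideanSpace ℝ (Fin d), (∀ i, ‖v i‖ = 1) ∧
    ∀ q ∈ frontier K, ∃ i, Illuminates K (v i) q

/-- the divided difference weight of the node `u` in the node set `U` -/
noncomputable def wt (U : Finset ℝ) (u : ℝ) : ℝ := 1 / ∏ x ∈ U.erase u, |u - x|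

/-- `s` and `t` are close: for some `d` further parameters outside `[s, t]`, the weights of `s` and
`t` together exceed the sum of the other weights -/
def Close (d : ℕ) (T : Finset ℝ) (s t : ℝ) : Prop :=
  ∃ V ⊆ T, V.card = d ∧ (∀ v ∈ V, v < s ∨ t < v) ∧
    ∑ v ∈ V, wt (insert s (insert t V)) v <
      wt (insert s (insert t V)) s + wt (insert s (insert t V)) t

open Classical in
/-- the number of anchors of the greedy scan of a list, started with the anchor `a`: an entry that
is not `c`-related to the current anchor becomes the new anchor -/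
noncomputable def anchors (c : ℝ → ℝ → Prop) : ℝ → List ℝ → ℕ
  | _, [] => 1
  | a, x :: xs => if c a x then anchors c a xs else anchors c x xs + 1

/-- the greedy count of the increasing list of parameters -/
noncomputable def greedy (d : ℕ) (T : Finset ℝ) : ℕ :=
  match T.sort (fun a b => a ≤ b) with
  | [] => 0
  | a :: xs => anchors (Close d T) a xs

end Pool.Agent.H.MP_830f5a_co
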