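import Pool.Agent.H.MP_830f5a_co.D

/-! The upper bound `2 d - 1`, by a Chebyshev exchange argument. -/

namespace Pool.Agent.H.MP_830f5a_co
open Finset Polynomial Filter Topology

noncomputable def sg (b : ℝ) : ℝ := if 0 < b then 1 else -1

lemma mul_sg {a b : ℝ} (h : 0 < a * b) : a * sg b = |a| := by
  rw [sg]
  split_ifs with hb
  · rw [mul_one, abs_of_pos ((mul_pos_iff_of_pos_right hb).1 h)]
  · have : a < 0 := by
      by_contra h'
      have := mul_nonpos_of_nonneg_of_nonpos (not_lt.1 h') (not_lt.1 hb)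
      linarith
    rw [abs_of_neg this]; ring

lemma sg_sq (b : ℝ) : sg b * sg b = 1 := by rw [sg]; split_ifs <;> norm_num

noncomputable def Phi (V : Finset ℝ) : ℝ := ∑ m ∈ V, wt V m

noncomputable def cheb (V : Finset ℝ) : ℝ[X] := Lagrange.interpolate V id fun m => sg (lam V m)

lemma cheb_eval {V : Finset ℝ} {m : ℝ} (hm : m ∈ V) : (cheb V).eval m = sg (lam V m) :=
  Lagrange.eval_interpolate_at_node (v := id) _ (Set.injOn_id _) hm

lemma cheb_natDegree {V : Finset ℝ} {e : ℕ} (hV : V.card = e + 1) : (cheb V).natDegree ≤ e := by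
  have := Lagrange.degree_interpolate_le (s := V) (v := id) (fun m => sg (lam V m)) (Set.injOn_id _)
  rw [hV, Nat.add_sub_cancel] at this
  exact natDegree_le_of_degree_le this

lemma cheb_coeff {V : Finset ℝ} {e : ℕ} (hV : V.card = e + 1) : (cheb V).coeff e = Phi V := by
  rw [← coeff_lam hV (cheb_natDegree hV), Phi]
  refine sum_congr rfl fun m hm => ?_
  rw [cheb_eval hm, mul_sg (mul_self_pos.2 (lam_ne V m)), abs_lam]

lemma lam_insert {B : Finset ℝ} {x m : ℝ} (hx : x ∉ B) (hm : m ∈ B) :
    lam (insert x B) m = lam B m / (m - x) := by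
  have hxm : x ≠ m := fun h => hx (h ▸ hm)
  rw [lam, lam, erase_insert_of_ne hxm, prod_insert (fun h => hx (mem_of_mem_erase h)), div_div,
    mul_comm]

lemma lam_insert_self {B : Finset ℝ} {x : ℝ} (hx : x ∉ B) :
    lam (insert x B) x = 1 / ∏ m ∈ B, (x - m) := by
  rw [lam, erase_insert hx]

lemma exchange {V : Finset ℝ} {e : ℕ} (hV : V.card = e + 1) {r x : ℝ} (hr : r ∈ V) (hx : x ∉ V)
    (hside : ∀ m ∈ V.erase r, 0 < (x - m) * (r - m)) :
    Phi V = Phi (insert x (V.erase r)) +
      wt (insert x (V.erase r)) x * (sg (lam V r) * (cheb V).eval x - 1) := by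
  have hx' : x ∉ V.erase r := fun h => hx (mem_of_mem_erase h)
  have hV' : (insert x (V.erase r)).card = e + 1 := by
    rw [card_insert_of_notMem hx', card_erase_of_mem hr, hV]; simp
  rw [← cheb_coeff hV, ← coeff_lam hV' (cheb_natDegree hV), Phi, sum_insert hx', sum_insert hx']
  have h1 : ∑ m ∈ V.erase r, lam (insert x (V.erase r)) m * (cheb V).eval m =
      ∑ m ∈ V.erase r, wt (insert x (V.erase r)) m := by
    refine sum_congr rfl fun m hm => ?_
    rw [cheb_eval (mem_of_mem_erase hm), mul_sg, abs_lam]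
    have e1 : lam V m = lam (V.erase r) m / (m - r) := by
      rw [← lam_insert (notMem_erase _ _) hm, insert_erase hr]
    rw [lam_insert hx' hm, e1, div_mul_div_comm]
    exact div_pos (mul_self_pos.2 (lam_ne _ _)) (by have := hside m hm; linarith)
  have h2 : lam (insert x (V.erase r)) x * sg (lam V r) = wt (insert x (V.erase r)) x := by
    rw [mul_sg, abs_lam]
    rw [lam_insert_self hx', lam, div_mul_div_comm]
    exact div_pos (by norm_num) (prod_same hside)
  rw [h1, ← h2]
  linear_combination (-lam (insert x (V.erase r)) x * (cheb V).eval x) * sg_sq (lam V r)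

lemma outer {V : Finset ℝ} (hV : 2 ≤ V.card) {r x : ℝ} (hr : r ∈ V) (hx : x ∉ V)
    (hfar : ∀ m ∈ V.erase r, |m - r| < |m - x|) : Phi (insert x (V.erase r)) < Phi V := by
  have hx' : x ∉ V.erase r := fun h => hx (mem_of_mem_erase h)
  rw [Phi, Phi, sum_insert hx', ← add_sum_erase _ _ hr]
  have hpos : ∀ m ∈ V.erase r, 0 < |m - r| := fun m hm =>
    abs_pos.2 (sub_ne_zero.2 (mem_erase.1 hm).1)
  refine add_lt_add_of_le_of_lt ?_ (sum_lt_sum_of_nonempty ?_ fun m hm => ?_)
  · rw [wt, wt, erase_insert hx']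
    refine one_div_le_one_div_of_le (prod_pos fun m hm => by
      rw [abs_sub_comm]; exact hpos m hm) (prod_le_prod (fun _ _ => abs_nonneg _) fun m hm => ?_)
    rw [abs_sub_comm r, abs_sub_comm x]
    exact (hfar m hm).le
  · exact card_pos.1 (by rw [card_erase_of_mem hr]; omega)
  · have e1 : lam V m = lam (V.erase r) m / (m - r) := by
      rw [← lam_insert (notMem_erase _ _) hm, insert_erase hr]
    rw [← abs_lam, ← abs_lam, lam_insert hx' hm, e1, abs_div, abs_div]
    exact div_lt_div_of_pos_left (abs_pos.2 (lam_ne _ _)) (hpos m hm) (hfar m hm)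

lemma exists_nodes {d : ℕ} (hd : 2 ≤ d) {T : Finset ℝ} (hT : d ≤ T.card) :
    ∃ V ⊆ T, V.card = d ∧ (∀ x ∈ T, x ∉ V → (∃ l ∈ V, l < x) ∧ ∃ r ∈ V, x < r) ∧
      ∀ s ∈ T, ∀ t ∈ T, s < t → (∀ v ∈ V, v < s ∨ t < v) → Close d T s t := by
  obtain ⟨V, hVm, hmin⟩ := exists_min_image (powersetCard d T)
    (fun V => toLex (Phi V, ∑ v ∈ V, v)) (powersetCard_nonempty.2 hT)
  obtain ⟨hVT, hV⟩ := mem_powersetCard.1 hVm
  have hex : ∀ r ∈ V, ∀ x ∈ T, x ∉ V → Phi V < Phi (insert x (V.erase r)) ∨
      (Phi V = Phi (insert x (V.erase r)) ∧ r ≤ x) := by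
    intro r hr x hx hxV
    have hx' : x ∉ V.erase r := fun h => hxV (mem_of_mem_erase h)
    have := hmin (insert x (V.erase r)) (mem_powersetCard.2
      ⟨insert_subset hx ((erase_subset _ _).trans hVT), by
        rw [card_insert_of_notMem hx', card_erase_of_mem hr, hV]; omega⟩)
    rw [Prod.Lex.toLex_le_toLex] at this
    rcases this with h | ⟨h1, h2⟩
    · exact Or.inl h
    · refine Or.inr ⟨h1, ?_⟩
      simp only at h2
      rw [sum_insert hx', ← add_sum_erase _ _ hr] at h2
      linarith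
  have hex' : ∀ r ∈ V, ∀ x ∈ T, x ∉ V → Phi V ≤ Phi (insert x (V.erase r)) := by
    intro r hr x hx hxV
    rcases hex r hr x hx hxV with h | h
    · exact h.le
    · exact h.1.le
  have hne : V.Nonempty := card_pos.1 (by omega)
  have hboth : ∀ x ∈ T, x ∉ V → (∃ l ∈ V, l < x) ∧ ∃ r ∈ V, x < r := by
    intro x hx hxV
    constructor
    · by_contra hcon
      push Not at hcon
      obtain ⟨r, hr, hrmin⟩ := exists_min_image V id hne
      have hxr : x < r := lt_of_le_of_ne (hcon r hr) fun h => hxV (h ▸ hr)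
      refine absurd (hex' r hr x hx hxV) (not_le.2 (outer (by omega) hr hxV fun m hm => ?_))
      have : r ≤ m := hrmin m (mem_of_mem_erase hm)
      rw [abs_of_nonneg (by linarith), abs_of_nonneg (by linarith)]
      linarith
    · by_contra hcon
      push Not at hcon
      obtain ⟨r, hr, hrmax⟩ := exists_max_image V id hne
      have hxr : r < x := lt_of_le_of_ne (hcon r hr) fun h => hxV (h ▸ hr)
      refine absurd (hex' r hr x hx hxV) (not_le.2 (outer (by omega) hr hxV fun m hm => ?_))
      have : m ≤ r := hrmax m (mem_of_mem_erase hm)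
      rw [abs_of_nonpos (by linarith), abs_of_nonpos (by linarith)]
      linarith
  refine ⟨V, hVT, hV, hboth, fun s hs t ht hst hout => ⟨V, hVT, hV, hout, ?_⟩⟩
  have hsV : s ∉ V := fun h => by rcases hout s h with h | h <;> linarith
  have htV : t ∉ V := fun h => by rcases hout t h with h | h <;> linarith
  obtain ⟨e, rfl⟩ : ∃ e, d = e + 1 := ⟨d - 1, by omega⟩
  obtain ⟨l, hl, hlmax⟩ := exists_max_image (V.filter fun u => u < s) id (by
    obtain ⟨l, h1, h2⟩ := (hboth s hs hsV).1
    exact ⟨l, mem_filter.2 ⟨h1, h2⟩⟩)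
  obtain ⟨r, hr, hrmin⟩ := exists_min_image (V.filter fun u => t < u) id (by
    obtain ⟨l, h1, h2⟩ := (hboth t ht htV).2
    exact ⟨l, mem_filter.2 ⟨h1, h2⟩⟩)
  obtain ⟨hl1, hl2⟩ := mem_filter.1 hl
  obtain ⟨hr1, hr2⟩ := mem_filter.1 hr
  have hgap : ∀ m ∈ V, m ≤ l ∨ r ≤ m := fun m hm => by
    rcases hout m hm with h | h
    · exact Or.inl (hlmax m (mem_filter.2 ⟨hm, h⟩))
    · exact Or.inr (hrmin m (mem_filter.2 ⟨hm, h⟩))
  have side1 : ∀ m ∈ V.erase l, 0 < (s - m) * (l - m) := fun m hm => by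
    obtain ⟨h1, h2⟩ := mem_erase.1 hm
    rcases hgap m h2 with h | h
    · have := lt_of_le_of_ne h h1
      exact mul_pos (by linarith) (by linarith)
    · exact mul_pos_of_neg_of_neg (by linarith) (by linarith)
  have side2 : ∀ m ∈ V.erase r, 0 < (t - m) * (r - m) := fun m hm => by
    obtain ⟨h1, h2⟩ := mem_erase.1 hm
    rcases hgap m h2 with h | h
    · exact mul_pos (by linarith) (by linarith)
    · have := lt_of_le_of_ne h h1.symm
      exact mul_pos_of_neg_of_neg (by linarith) (by linarith)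
  have k1 : sg (lam V l) * (cheb V).eval s ≤ 1 := by
    have a1 := exchange hV hl1 hsV side1
    have a2 := hex' l hl1 s hs hsV
    have a3 := wt_pos (insert s (V.erase l)) s
    by_contra h
    have := mul_pos a3 (sub_pos.2 (not_le.1 h))
    linarith
  have k2 : sg (lam V r) * (cheb V).eval t < 1 := by
    have a1 := exchange hV hr1 htV side2
    have a2 : Phi V < Phi (insert t (V.erase r)) := by
      rcases hex r hr1 t ht htV with h | h
      · exact h
      · linarith [h.2]
    have a3 := wt_pos (insert t (V.erase r)) t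
    by_contra h
    have := mul_nonneg a3.le (sub_nonneg.2 (not_lt.1 h))
    linarith
  have e0 := ann_lam (U := insert s (insert t V)) (d := e + 1)
    (by rw [card_U hst.ne hsV htV, hV]) ((cheb_natDegree hV).trans (Nat.le_succ e))
  rw [sum_U hst.ne hsV htV] at e0
  have e1 : ∑ u ∈ V, lam (insert s (insert t V)) u * (cheb V).eval u =
      ∑ u ∈ V, wt (insert s (insert t V)) u := by
    refine sum_congr rfl fun m hm => ?_
    rw [cheb_eval hm, mul_sg, abs_lam]
    rw [lam_insert (by simp [hst.ne, hsV]) (mem_insert_of_mem hm), lam_insert htV hm, div_div,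
      div_mul_eq_mul_div]
    refine div_pos (mul_self_pos.2 (lam_ne _ _)) ?_
    rcases hout m hm with h | h
    · exact mul_pos_of_neg_of_neg (by linarith) (by linarith)
    · exact mul_pos (by linarith) (by linarith)
  have e2 : -lam (insert s (insert t V)) s * sg (lam V l) = wt (insert s (insert t V)) s := by
    rw [mul_sg, abs_neg, abs_lam]
    rw [lam_s hst.ne hsV htV, ← mul_prod_erase _ _ hl1, lam, ← neg_div, div_mul_div_comm]
    refine div_pos_of_neg_of_neg (by norm_num) ?_
    have := mul_pos (mul_pos (sub_pos.2 hst) (sub_pos.2 hl2)) (prod_same side1)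
    linarith
  have e3 : -lam (insert s (insert t V)) t * sg (lam V r) = wt (insert s (insert t V)) t := by
    rw [mul_sg, abs_neg, abs_lam]
    rw [lam_t hst.ne hsV htV, ← mul_prod_erase _ _ hr1, lam, ← neg_div, div_mul_div_comm]
    refine div_pos_of_neg_of_neg (by norm_num) ?_
    have := mul_pos (mul_pos (sub_pos.2 hst) (sub_pos.2 hr2)) (prod_same side2)
    linarith
  have f1 := mul_le_mul_of_nonneg_left k1 (wt_pos (insert s (insert t V)) s).le
  have f2 := mul_lt_mul_of_pos_left k2 (wt_pos (insert s (insert t V)) t)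
  have g1 : wt (insert s (insert t V)) s * (sg (lam V l) * (cheb V).eval s) =
      -(lam (insert s (insert t V)) s * (cheb V).eval s) := by
    rw [← e2]
    linear_combination (-lam (insert s (insert t V)) s * (cheb V).eval s) * sg_sq (lam V l)
  have g2 : wt (insert s (insert t V)) t * (sg (lam V r) * (cheb V).eval t) =
      -(lam (insert s (insert t V)) t * (cheb V).eval t) := by
    rw [← e3]
    linear_combination (-lam (insert s (insert t V)) t * (cheb V).eval t) * sg_sq (lam V r)
  linarith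

lemma far_card_le {d : ℕ} (hd : 2 ≤ d) {T A : Finset ℝ} (hT : d ≤ T.card) (hA : A ⊆ T)
    (h : ∀ s ∈ A, ∀ t ∈ A, s < t → ¬ Close d T s t) : A.card ≤ 2 * d - 1 := by
  obtain ⟨V, hVT, hV, h1, h2⟩ := exists_nodes hd hT
  have key : ∀ s ∈ A \ V, ∀ t ∈ A \ V, s < t →
      (V.filter fun u => u < s).card ≠ (V.filter fun u => u < t).card := by
    intro s hs t ht hst hc
    obtain ⟨s1, s2⟩ := mem_sdiff.1 hs
    obtain ⟨t1, t2⟩ := mem_sdiff.1 ht
    have : (V.filter fun u => u < s) = V.filter fun u => u < t :=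
      eq_of_subset_of_card_le (fun u hu => mem_filter.2
        ⟨(mem_filter.1 hu).1, (mem_filter.1 hu).2.trans hst⟩) hc.ge
    refine h s s1 t t1 hst (h2 s (hA s1) t (hA t1) hst fun v hv => ?_)
    rcases lt_or_gt_of_ne (fun h : v = t => t2 (h ▸ hv)) with h' | h'
    · have h3 : v ∈ V.filter fun u => u < t := mem_filter.2 ⟨hv, h'⟩
      rw [← this] at h3
      exact Or.inl (mem_filter.1 h3).2
    · exact Or.inr h'
  have h3 : (A \ V).card ≤ (Icc 1 (d - 1)).card := by
    refine card_le_card_of_injOn (fun s => (V.filter fun u => u < s).card) ?_ ?_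
    · intro s hs
      obtain ⟨s1, s2⟩ := mem_sdiff.1 (mem_coe.1 hs)
      obtain ⟨⟨l, l1, l2⟩, r, r1, r2⟩ := h1 s (hA s1) s2
      have a1 : 0 < (V.filter fun u => u < s).card := card_pos.2 ⟨l, mem_filter.2 ⟨l1, l2⟩⟩
      have a2 : (V.filter fun u => u < s).card < V.card :=
        card_lt_card (filter_ssubset.2 ⟨r, r1, not_lt.2 r2.le⟩)
      simp only [coe_Icc, Set.mem_Icc]
      omega
    · intro s hs t ht hc
      by_contra hne
      rcases lt_or_gt_of_ne hne with h' | h'
      · exact key s hs t ht h' hc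
      · exact key t ht s hs h' hc.symm
  have h4 := le_card_sdiff V A
  rw [Nat.card_Icc] at h3
  omega

lemma greedy_le {d : ℕ} (hd : 2 ≤ d) {T : Finset ℝ} (hT : d ≤ T.card) :
    greedy d T ≤ min T.card (2 * d - 1) := by
  obtain ⟨A, a1, a2, a3, -⟩ := greedy_spec (d := d) (by omega) T
  rw [← a2]
  exact le_min (card_le_card a1) (far_card_le hd hT a1 a3)

end Pool.Agent.H.MP_830f5a_co
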