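import Pool.Agent.H.MP_830f5a_co.F

/-! Parameter sets with many pairwise antipodal vertices. -/

namespace Pool.Agent.H.MP_830f5a_co
open Finset Polynomial Filter Topology

def Str (e : ℕ) (T : Finset ℝ) (s t : ℝ) : Prop :=
  ∃ q : ℝ[X], q.natDegree ≤ e ∧ q.eval s = 0 ∧ q.eval t = 1 ∧
    ∀ x ∈ T, x ≠ s → x ≠ t → 0 < q.eval x ∧ q.eval x < 1

def Conf (e : ℕ) (T A : Finset ℝ) : Prop := A ⊆ T ∧ ∀ s ∈ A, ∀ t ∈ A, s < t → Str e T s t

lemma str_of {e : ℕ} {T : Finset ℝ} {s t : ℝ} (q : ℝ[X]) (hq : q.natDegree ≤ e)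
    (hst : q.eval s < q.eval t)
    (h : ∀ x ∈ T, x ≠ s → x ≠ t → q.eval s < q.eval x ∧ q.eval x < q.eval t) : Str e T s t := by
  have h0 : 0 < q.eval t - q.eval s := sub_pos.2 hst
  refine ⟨(q.eval t - q.eval s)⁻¹ • (q - C (q.eval s)), ?_, by simp, ?_, fun x hx h1 h2 => ?_⟩
  · refine (natDegree_smul_le _ _).trans ((natDegree_sub_le _ _).trans ?_)
    simp [hq]
  · simp [h0.ne']
  · obtain ⟨a, b⟩ := h x hx h1 h2
    simp only [eval_smul, eval_sub, eval_C, smul_eq_mul]
    rw [inv_mul_eq_div, div_lt_one h0]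
    exact ⟨div_pos (by linarith) h0, by linarith⟩

lemma conf_lower {d : ℕ} (hd : 2 ≤ d) {T A : Finset ℝ} (hA : A ⊆ T)
    (h : ∀ s ∈ A, ∀ t ∈ A, s < t → ∃ p : ℝ[X], p.natDegree ≤ d ∧ p.eval s < p.eval t ∧
      ∀ x ∈ T, p.eval s ≤ p.eval x ∧ p.eval x ≤ p.eval t) {n : ℕ}
    (hn : IllumBy (cyclic d T) n) : A.card ≤ n :=
  card_le_of_illumBy hd hA (fun s hs t ht hst v h1 h2 => by
    obtain ⟨p, p1, p2, p3⟩ := h s hs t ht hst
    exact not_both p1 p3 p2 h1 h2) hn

lemma tendsto_eval {e : ℕ} {p : ℝ[X]} (hp : p.natDegree ≤ e) {y : ℝ → ℝ}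
    (hy : Tendsto (fun Z => y Z / Z) atTop (𝓝 1)) :
    Tendsto (fun Z => p.eval (y Z) / Z ^ e) atTop (𝓝 (p.coeff e)) := by
  have h1 : Tendsto (fun Z : ℝ => ∑ i ∈ range (e + 1), p.coeff i * (y Z / Z) ^ i * (Z⁻¹) ^ (e - i))
      atTop (𝓝 (∑ i ∈ range (e + 1), p.coeff i * 1 ^ i * 0 ^ (e - i))) :=
    tendsto_finsetSum _ fun i _ =>
      ((hy.pow i).const_mul _).mul (tendsto_inv_atTop_zero.pow _)
  have h2 : ∑ i ∈ range (e + 1), p.coeff i * 1 ^ i * (0 : ℝ) ^ (e - i) = p.coeff e := by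
    rw [sum_range_succ, sum_eq_zero]
    · simp
    · intro i hi
      rw [zero_pow (by have := mem_range.1 hi; omega), mul_zero]
  rw [h2] at h1
  refine h1.congr' ?_
  filter_upwards [eventually_gt_atTop 0] with Z hZ
  rw [eval_eq_sum_range' (n := e + 1) (by omega), sum_div]
  refine sum_congr rfl fun i hi => ?_
  obtain ⟨k, rfl⟩ : ∃ k, e = i + k := ⟨e - i, by have := mem_range.1 hi; omega⟩
  rw [Nat.add_sub_cancel_left, div_pow, inv_pow, pow_add]
  field_simp

noncomputable def ext (q : ℝ[X]) (Z : ℝ) : ℝ[X] := (q - C (1 / 2)) * (1 - C Z⁻¹ * X) + C (1 / 2)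

lemma ext_eval (q : ℝ[X]) (Z x : ℝ) :
    (ext q Z).eval x = (q.eval x - 1 / 2) * (1 - Z⁻¹ * x) + 1 / 2 := by simp [ext]

lemma ext_natDegree {q : ℝ[X]} {e : ℕ} (hq : q.natDegree ≤ e) (Z : ℝ) :
    (ext q Z).natDegree ≤ e + 1 := by
  refine (natDegree_add_le _ _).trans (max_le (natDegree_mul_le.trans (add_le_add ?_ ?_)) (by simp))
  · exact (natDegree_sub_le _ _).trans (by simp [hq])
  · compute_degree

lemma ext_tendsto (q : ℝ[X]) (x : ℝ) :
    Tendsto (fun Z => (ext q Z).eval x) atTop (𝓝 (q.eval x)) := by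
  simp only [ext_eval]
  have := ((((tendsto_inv_atTop_zero (𝕜 := ℝ)).mul_const x).const_sub 1).const_mul
    (q.eval x - 1 / 2)).add_const (1 / 2)
  simpa using this

lemma ext_far {q : ℝ[X]} {e : ℕ} (hq : q.natDegree ≤ e + 1) (c : ℝ) :
    Tendsto (fun Z => (ext q Z).eval (Z + c / Z ^ e)) atTop
      (𝓝 (-(c * q.coeff (e + 1)) + 1 / 2)) := by
  have hy : Tendsto (fun Z : ℝ => (Z + c / Z ^ e) / Z) atTop (𝓝 1) := by
    have := (((tendsto_inv_atTop_zero (𝕜 := ℝ)).pow (e + 1)).const_mul c).const_add 1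
    simp only [zero_pow (Nat.succ_ne_zero e), mul_zero, add_zero] at this
    refine this.congr' ?_
    filter_upwards [eventually_gt_atTop 0] with Z hZ
    rw [inv_pow, pow_succ]
    field_simp
  have h1 := tendsto_eval (e := e + 1) (p := q - C (1 / 2))
    ((natDegree_sub_le _ _).trans (by simp [hq])) hy
  have h2 := ((h1.const_mul c).neg).add_const (1 / 2)
  simp only [coeff_sub, coeff_C_succ, sub_zero] at h2
  refine h2.congr' ?_
  filter_upwards [eventually_gt_atTop 0] with Z hZ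
  rw [ext_eval]
  simp only [eval_sub, eval_C]
  field_simp; ring

lemma exists_larger {e : ℕ} {T : Finset ℝ} {s t : ℝ} {q : ℝ[X]} (hq : q.natDegree ≤ e + 2)
    (hs : q.eval s = 0) (ht : q.eval t = 1)
    (h : ∀ x ∈ T, x ≠ s → x ≠ t → 0 < q.eval x ∧ q.eval x < 1) :
    ∃ M : ℝ[X], M.natDegree ≤ e + 2 ∧ (∀ x ∈ T, 0 < M.eval x ∧ M.eval x < 1) ∧
      |q.coeff (e + 2)| < M.coeff (e + 2) := by
  have main : ∀ {s t : ℝ} {q : ℝ[X]}, q.natDegree ≤ e + 2 → q.eval s = 0 → q.eval t = 1 →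
      (∀ x ∈ T, x ≠ s → x ≠ t → 0 < q.eval x ∧ q.eval x < 1) → 0 ≤ q.coeff (e + 2) →
      ∃ M : ℝ[X], M.natDegree ≤ e + 2 ∧ (∀ x ∈ T, 0 < M.eval x ∧ M.eval x < 1) ∧
        q.coeff (e + 2) < M.coeff (e + 2) := by
    intro s t q hq hs ht h h0
    set W : ℝ[X] := (X - C s) * (X - C t) * X ^ e with hW
    have hW1 : W.Monic := ((monic_X_sub_C s).mul (monic_X_sub_C t)).mul (monic_X_pow e)
    have hW2 : W.natDegree = e + 2 := by
      rw [hW, ((monic_X_sub_C s).mul (monic_X_sub_C t)).natDegree_mul (monic_X_pow e),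
        (monic_X_sub_C s).natDegree_mul (monic_X_sub_C t)]
      simp; omega
    have hW3 : W.coeff (e + 2) = 1 := by rw [← hW2]; exact hW1
    have ev : ∀ᶠ η in 𝓝[>] (0 : ℝ), ∀ x ∈ T, 0 ≤ q.eval x + η * W.eval x ∧
        q.eval x + η * W.eval x ≤ 1 := by
      refine (eventually_all_finset T).2 fun x hx => ?_
      by_cases h1 : x = s
      · simp [h1, hW, hs]
      by_cases h2 : x = t
      · simp [h2, hW, ht]
      have h3 : Tendsto (fun η : ℝ => q.eval x + η * W.eval x) (𝓝[>] 0) (𝓝 (q.eval x)) := by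
        have : Continuous fun η : ℝ => q.eval x + η * W.eval x := by fun_prop
        have h := this.tendsto 0
        simp only [zero_mul, add_zero] at h
        exact h.mono_left nhdsWithin_le_nhds
      obtain ⟨a, b⟩ := h x hx h1 h2
      filter_upwards [h3.eventually (lt_mem_nhds a), h3.eventually (gt_mem_nhds b)] with η c1 c2
      exact ⟨c1.le, c2.le⟩
    obtain ⟨η, h1, h2⟩ := (ev.and self_mem_nhdsWithin).exists
    have h2 : 0 < η := h2
    set κ := q.coeff (e + 2)
    set θ := η / (2 * (κ + η)) with hθ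
    have θ0 : 0 < θ := by positivity
    have θ1 : θ ≤ 1 / 2 := by
      rw [hθ, div_le_iff₀ (by positivity)]; linarith
    refine ⟨(1 - θ) • (q + η • W) + C (θ / 2), ?_, fun x hx => ?_, ?_⟩
    · refine (natDegree_add_le _ _).trans (max_le ((natDegree_smul_le _ _).trans
        ((natDegree_add_le _ _).trans (max_le hq ((natDegree_smul_le _ _).trans hW2.le)))) (by simp))
    · obtain ⟨a, b⟩ := h1 x hx
      simp only [eval_add, eval_smul, eval_C, smul_eq_mul]
      constructor <;> nlinarith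
    · simp only [coeff_add, coeff_smul, coeff_C_succ, hW3, smul_eq_mul]
      have : θ * (κ + η) = η / 2 := by rw [hθ]; field_simp
      nlinarith
  rcases le_total 0 (q.coeff (e + 2)) with h0 | h0
  · rw [abs_of_nonneg h0]; exact main hq hs ht h h0
  · have := main (s := t) (t := s) (q := 1 - q) ((natDegree_sub_le _ _).trans (by simp [hq]))
      (by simp [ht]) (by simp [hs]) (fun x hx h1 h2 => by
        obtain ⟨a, b⟩ := h x hx h2 h1
        simp only [eval_sub, eval_one]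
        constructor <;> linarith) (by simp [coeff_one, h0])
    rw [abs_of_nonpos h0]
    simpa [coeff_one] using this

lemma exists_bound (T : Finset ℝ) : ∃ R : ℝ, 0 ≤ R ∧ ∀ x ∈ T, |x| ≤ R :=
  ⟨∑ x ∈ T, |x|, sum_nonneg fun _ _ => abs_nonneg _,
    fun _ hx => single_le_sum (f := fun x : ℝ => |x|) (fun _ _ => abs_nonneg _) hx⟩

lemma step_two {e : ℕ} {T A : Finset ℝ} (h : Conf (e + 2) T A) (hA : 2 ≤ A.card) :
    ∃ y z : ℝ, y < z ∧ (∀ x ∈ T, x < y) ∧
      Conf (e + 3) (insert y (insert z T)) (insert y (insert z A)) := by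
  obtain ⟨hAT, hstr⟩ := h
  set P := (A ×ˢ A).filter fun a => a.1 < a.2 with hP
  have hPne : P.Nonempty := by
    obtain ⟨a, ha, b, hb, hab⟩ := one_lt_card.1 hA
    rcases lt_or_gt_of_ne hab with h | h
    · exact ⟨(a, b), mem_filter.2 ⟨mem_product.2 ⟨ha, hb⟩, h⟩⟩
    · exact ⟨(b, a), mem_filter.2 ⟨mem_product.2 ⟨hb, ha⟩, h⟩⟩
  have : ∀ a : ℝ × ℝ, ∃ q : ℝ[X], a ∈ P → q.natDegree ≤ e + 2 ∧ q.eval a.1 = 0 ∧ q.eval a.2 = 1 ∧
      ∀ x ∈ T, x ≠ a.1 → x ≠ a.2 → 0 < q.eval x ∧ q.eval x < 1 := by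
    intro a
    by_cases ha : a ∈ P
    · obtain ⟨h1, h2⟩ := mem_filter.1 ha
      obtain ⟨q, hq⟩ := hstr a.1 (mem_product.1 h1).1 a.2 (mem_product.1 h1).2 h2
      exact ⟨q, fun _ => hq⟩
    · exact ⟨0, fun h => absurd h ha⟩
  choose q hq using this
  obtain ⟨a0, ha0, hmax⟩ := exists_max_image P (fun a => |(q a).coeff (e + 2)|) hPne
  obtain ⟨M, M1, M2, M3⟩ := exists_larger (hq a0 ha0).1 (hq a0 ha0).2.1 (hq a0 ha0).2.2.1
    (hq a0 ha0).2.2.2
  set K := |(q a0).coeff (e + 2)|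
  have hK : 0 ≤ K := abs_nonneg _
  set c := 1 / (K + M.coeff (e + 2)) with hc
  have hKM : 0 < K + M.coeff (e + 2) := by linarith
  have hc0 : 0 < c := by positivity
  have hcK : c * K < 1 / 2 := by
    rw [hc, one_div, inv_mul_eq_div, div_lt_iff₀ hKM]; linarith
  have hcM : 1 / 2 < c * M.coeff (e + 2) := by
    rw [hc, one_div (K + _), inv_mul_eq_div, lt_div_iff₀ hKM]; linarith
  obtain ⟨R, hR0, hR⟩ := exists_bound T
  have ev1 : ∀ᶠ Z in atTop, ∀ a ∈ P, (ext (q a) Z).eval a.1 < (ext (q a) Z).eval a.2 ∧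
      ∀ x ∈ insert (Z + -c / Z ^ (e + 1)) (insert (Z + c / Z ^ (e + 1)) T), x ≠ a.1 → x ≠ a.2 →
        (ext (q a) Z).eval a.1 < (ext (q a) Z).eval x ∧
          (ext (q a) Z).eval x < (ext (q a) Z).eval a.2 := by
    refine (eventually_all_finset P).2 fun a ha => ?_
    obtain ⟨q1, q2, q3, q4⟩ := hq a ha
    have t1 := ext_tendsto (q a) a.1
    have t2 := ext_tendsto (q a) a.2
    rw [q2] at t1
    rw [q3] at t2
    have b1 := abs_le.1 (hmax a ha)
    have b2 := mul_le_mul_of_nonneg_left b1.1 hc0.le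
    have b3 := mul_le_mul_of_nonneg_left b1.2 hc0.le
    have t3 := ext_far (e := e + 1) q1 (-c)
    have t4 := ext_far (e := e + 1) q1 c
    have t5 : ∀ᶠ Z in atTop, ∀ x ∈ T, x ≠ a.1 → x ≠ a.2 →
        (ext (q a) Z).eval a.1 < (ext (q a) Z).eval x ∧
          (ext (q a) Z).eval x < (ext (q a) Z).eval a.2 := by
      refine (eventually_all_finset T).2 fun x hx => ?_
      by_cases h1 : x = a.1
      · simp [h1]
      by_cases h2 : x = a.2
      · simp [h2]
      obtain ⟨c1, c2⟩ := q4 x hx h1 h2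
      filter_upwards [t1.eventually_lt (ext_tendsto (q a) x) c1,
        (ext_tendsto (q a) x).eventually_lt t2 c2] with Z d1 d2
      exact fun _ _ => ⟨d1, d2⟩
    filter_upwards [t1.eventually_lt t2 one_pos, t1.eventually_lt t3 (by linarith),
      t3.eventually_lt t2 (by linarith), t1.eventually_lt t4 (by linarith),
      t4.eventually_lt t2 (by linarith), t5] with Z d1 d2 d3 d4 d5 d6
    refine ⟨d1, fun x hx => ?_⟩
    rcases mem_insert.1 hx with rfl | hx
    · exact fun _ _ => ⟨d2, d3⟩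
    rcases mem_insert.1 hx with rfl | hx
    · exact fun _ _ => ⟨d4, d5⟩
    exact d6 x hx
  have t3 := ext_far (e := e + 1) M1 (-c)
  have t4 := ext_far (e := e + 1) M1 c
  have ev2 : ∀ᶠ Z in atTop, ∀ x ∈ T, (ext M Z).eval (Z + c / Z ^ (e + 1)) < (ext M Z).eval x ∧
      (ext M Z).eval x < (ext M Z).eval (Z + -c / Z ^ (e + 1)) := by
    refine (eventually_all_finset T).2 fun x hx => ?_
    obtain ⟨c1, c2⟩ := M2 x hx
    filter_upwards [t4.eventually_lt (ext_tendsto M x) (by linarith),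
      (ext_tendsto M x).eventually_lt t3 (by linarith)] with Z d1 d2
    exact ⟨d1, d2⟩
  obtain ⟨Z, z1, z2, z3, z4, z5⟩ := (ev1.and (ev2.and ((t4.eventually_lt t3 (by linarith)).and
    ((eventually_ge_atTop (5 * R + 6)).and (eventually_ge_atTop c))))).exists
  have hZ1 : 1 ≤ Z := by linarith
  have hh0 : 0 < c / Z ^ (e + 1) := by positivity
  have hh1 : c / Z ^ (e + 1) ≤ 1 := by
    rw [div_le_one (by positivity)]
    exact z5.trans (le_self_pow₀ hZ1 (by omega))
  rw [neg_div] at z1 z2 z3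
  set h := c / Z ^ (e + 1)
  set y := Z + -h with hy
  set z := Z + h with hz
  have hlt : ∀ x ∈ T, x < y := fun x hx => by have := abs_le.1 (hR x hx); linarith
  refine ⟨y, z, by linarith, hlt, insert_subset_insert _ (insert_subset_insert _ hAT), ?_⟩
  intro s hs t ht hst
  have hyz : y < z := by linarith
  rcases mem_insert.1 hs with hs' | hs'
  · rcases mem_insert.1 ht with ht' | ht'
    · linarith
    rcases mem_insert.1 ht' with ht' | ht'
    · rw [hs', ht']
      refine str_of (-ext M Z) (by rw [natDegree_neg]; exact ext_natDegree M1 Z)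
        (by simpa using z3) fun x hx h1 h2 => ?_
      have hxT : x ∈ T := by simpa [h1, h2] using hx
      simpa using (z2 x hxT).symm
    · linarith [hlt t (hAT ht')]
  rcases mem_insert.1 hs' with hs' | hs'
  · rcases mem_insert.1 ht with ht' | ht'
    · linarith
    rcases mem_insert.1 ht' with ht' | ht'
    · linarith
    · linarith [hlt t (hAT ht')]
  have hsR := abs_le.1 (hR s (hAT hs'))
  rcases mem_insert.1 ht with ht' | ht'
  · rw [ht']
    refine str_of ((X - C s) ^ 2 * (C ((3 * y - s) / 2) - X)) (le_trans (by compute_degree)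
      (show 3 ≤ e + 3 by omega)) ?_ fun x hx h1 h2 => ?_
    · simp only [eval_mul, eval_pow, eval_sub, eval_X, eval_C, sub_self]
      have : 0 < (y - s) ^ 2 * ((3 * y - s) / 2 - y) := mul_pos (pow_pos (by linarith) 2) (by linarith)
      linarith
    · simp only [eval_mul, eval_pow, eval_sub, eval_X, eval_C, sub_self]
      have hx' : -R ≤ x ∧ x ≤ y + 2 := by
        rcases mem_insert.1 hx with h | h
        · exact absurd h h2
        rcases mem_insert.1 h with h | h
        · constructor <;> linarith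
        · have := abs_le.1 (hR x h); constructor <;> linarith
      have a1 : 0 < (x - s) ^ 2 := sq_pos_of_ne_zero (sub_ne_zero.2 h1)
      have a2 : 0 < (x - y) ^ 2 := sq_pos_of_ne_zero (sub_ne_zero.2 h2)
      have a3 := mul_pos a1 (show 0 < (3 * y - s) / 2 - x by linarith)
      have a4 := mul_pos a2 (show 0 < x - s + (y - s) / 2 by linarith)
      constructor
      · linarith
      · nlinarith
  rcases mem_insert.1 ht' with ht' | ht'
  · rw [ht']
    refine str_of ((X - C s) ^ 2) (le_trans (by compute_degree) (show 2 ≤ e + 3 by omega)) ?_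
      fun x hx h1 h2 => ?_
    · simp only [eval_pow, eval_sub, eval_X, eval_C, sub_self]
      have : 0 < (z - s) ^ 2 := pow_pos (by linarith) 2
      linarith
    · simp only [eval_pow, eval_sub, eval_X, eval_C, sub_self]
      have hx' : -R ≤ x ∧ x < z := by
        rcases mem_insert.1 hx with h | h
        · constructor <;> linarith
        rcases mem_insert.1 h with h | h
        · exact absurd h h2
        · have := abs_le.1 (hR x h); constructor <;> linarith
      have a1 : 0 < (x - s) ^ 2 := sq_pos_of_ne_zero (sub_ne_zero.2 h1)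
      have a4 := mul_pos (sub_pos.2 hx'.2) (show 0 < z + x - 2 * s by linarith)
      constructor
      · linarith
      · nlinarith
  · obtain ⟨b1, b2⟩ := z1 (s, t) (mem_filter.2 ⟨mem_product.2 ⟨hs', ht'⟩, hst⟩)
    exact str_of _ (ext_natDegree (hq _ (mem_filter.2 ⟨mem_product.2 ⟨hs', ht'⟩, hst⟩)).1 Z) b1 b2

end Pool.Agent.H.MP_830f5a_co
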