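import Pool.Agent.H.MP_830f5a_co.G

/-! All values between `d + 1` and `min n (2 d - 1)` occur. -/

namespace Pool.Agent.H.MP_830f5a_co
open Finset Polynomial Filter Topology

lemma conf_base (j : ℕ) : ∃ T A : Finset ℝ, Conf 2 T A ∧ T.card = j + 3 ∧ A.card = 3 := by
  set L : ℝ := j + 1 with hL
  set B : Finset ℝ := (range (j + 1)).image (fun i : ℕ => (i : ℝ)) with hB
  have hBmem : ∀ x ∈ B, (x = 0 ∨ 1 ≤ x) ∧ x ≤ j := by
    intro x hx
    obtain ⟨i, hi, rfl⟩ := mem_image.1 hx
    refine ⟨?_, by exact_mod_cast Nat.lt_succ_iff.1 (mem_range.1 hi)⟩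
    rcases Nat.eq_zero_or_pos i with h | h
    · left; exact_mod_cast h
    · right; exact_mod_cast h
  have hj : (0 : ℝ) ≤ j := Nat.cast_nonneg j
  have h1 : L ∉ B := fun h => by linarith [(hBmem L h).2]
  have h2 : -L ∉ insert L B := fun h => by
    rcases mem_insert.1 h with h | h
    · linarith
    · rcases (hBmem _ h).1 with h | h <;> linarith
  have h0 : (0 : ℝ) ∈ B := mem_image.2 ⟨0, by simp, by simp⟩
  have hT : ∀ x ∈ insert (-L) (insert L B), x = -L ∨ x = L ∨ ((x = 0 ∨ 1 ≤ x) ∧ x ≤ j) := by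
    intro x hx
    rcases mem_insert.1 hx with h | h
    · exact Or.inl h
    rcases mem_insert.1 h with h | h
    · exact Or.inr (Or.inl h)
    · exact Or.inr (Or.inr (hBmem x h))
  refine ⟨insert (-L) (insert L B), {-L, L, 0}, ⟨?_, ?_⟩, ?_, ?_⟩
  · exact insert_subset_insert _ (insert_subset_insert _ (singleton_subset_iff.2 h0))
  · intro s hs t ht hst
    simp only [mem_insert, mem_singleton] at hs ht
    rcases hs with rfl | rfl | rfl <;> rcases ht with rfl | rfl | rfl <;> try linarith
    · refine str_of X (by simp) (by simpa using hst) fun x hx h1 h2 => ?_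
      simp only [eval_X]
      rcases hT x hx with h | h | ⟨h | h, h'⟩
      · exact absurd h h1
      · exact absurd h h2
      · constructor <;> linarith
      · constructor <;> linarith
    · refine str_of (-(X - C (1 / 4)) ^ 2) (by rw [natDegree_neg]; compute_degree) ?_
        fun x hx h1 h2 => ?_
      · simp only [eval_neg, eval_pow, eval_sub, eval_X, eval_C]; nlinarith
      · simp only [eval_neg, eval_pow, eval_sub, eval_X, eval_C]
        rcases hT x hx with h | h | ⟨h | h, h'⟩
        · exact absurd h h1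
        · rw [h]; constructor <;> nlinarith
        · exact absurd h h2
        · constructor <;> nlinarith
    · refine str_of ((X + C (1 / 4)) ^ 2) (by compute_degree) ?_ fun x hx h1 h2 => ?_
      · simp only [eval_pow, eval_add, eval_X, eval_C]; nlinarith
      · simp only [eval_pow, eval_add, eval_X, eval_C]
        rcases hT x hx with h | h | ⟨h | h, h'⟩
        · rw [h]; constructor <;> nlinarith
        · exact absurd h h2
        · exact absurd h h1
        · constructor <;> nlinarith
  · rw [card_insert_of_notMem h2, card_insert_of_notMem h1, hB,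
      card_image_of_injective _ Nat.cast_injective, card_range]
  · rw [card_insert_of_notMem, card_insert_of_notMem, card_singleton]
    · simp only [mem_singleton]; linarith
    · simp only [mem_insert, mem_singleton, not_or]; constructor <;> linarith

lemma conf_all (e j : ℕ) :
    ∃ T A : Finset ℝ, Conf (e + 2) T A ∧ T.card = j + (2 * e + 3) ∧ A.card = 2 * e + 3 := by
  induction e with
  | zero => simpa using conf_base j
  | succ e ih =>
    obtain ⟨T, A, h1, h2, h3⟩ := ih
    obtain ⟨y, z, a1, a2, a3⟩ := step_two h1 (by omega)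
    have b1 : z ∉ T := fun h => by linarith [a2 z h]
    have b2 : y ∉ insert z T := fun h => by
      rcases mem_insert.1 h with h | h
      · linarith
      · linarith [a2 y h]
    refine ⟨_, _, a3, ?_, ?_⟩
    · rw [card_insert_of_notMem b2, card_insert_of_notMem b1]; omega
    · rw [card_insert_of_notMem fun h => b2 (insert_subset_insert _ h1.1 h),
        card_insert_of_notMem fun h => b1 (h1.1 h)]
      omega

lemma close_near {V : Finset ℝ} {Z : ℝ} (hV : ∀ v ∈ V, v < Z) :
    ∀ᶠ x in 𝓝 Z, Z < x → ∑ v ∈ V, wt (insert Z (insert x V)) v <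
      wt (insert Z (insert x V)) Z + wt (insert Z (insert x V)) x := by
  set S := ∑ v ∈ V, wt V v / (Z - v) ^ 2 with hS
  set P := ∏ v ∈ V, (Z - v) with hP
  have hP0 : 0 < P := prod_pos fun v hv => sub_pos.2 (hV v hv)
  have h1 : Tendsto (fun x : ℝ => S * ((x - Z) * P)) (𝓝 Z) (𝓝 0) := by
    have : Continuous fun x : ℝ => S * ((x - Z) * P) := by fun_prop
    simpa using this.tendsto Z
  filter_upwards [h1.eventually (gt_mem_nhds one_pos)] with x hx hZx
  have hZV : Z ∉ V := fun h => lt_irrefl _ (hV Z h)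
  have hxV : x ∉ V := fun h => by linarith [hV x h]
  have a1 : ∑ v ∈ V, wt (insert Z (insert x V)) v ≤ S := by
    refine sum_le_sum fun v hv => ?_
    have := hV v hv
    rw [← abs_lam, lam_insert (by simp [hZx.ne, hZV]) (mem_insert_of_mem hv), lam_insert hxV hv,
      div_div, abs_div, abs_lam,
      abs_of_pos (mul_pos_of_neg_of_neg (by linarith) (by linarith))]
    exact div_le_div_of_nonneg_left (wt_pos V v).le (pow_pos (by linarith) 2) (by nlinarith)
  have a2 : wt (insert Z (insert x V)) Z = 1 / ((x - Z) * P) := by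
    rw [← abs_lam, lam_s hZx.ne hZV hxV, ← hP, abs_div, abs_one, abs_mul, abs_of_pos hP0,
      abs_sub_comm, abs_of_pos (sub_pos.2 hZx)]
  have a3 : S < 1 / ((x - Z) * P) := by
    rwa [lt_div_iff₀ (mul_pos (sub_pos.2 hZx) hP0)]
  have := wt_pos (insert Z (insert x V)) x
  linarith

lemma step_one {e : ℕ} {A : Finset ℝ} (he : 1 ≤ e) (h : Conf e A A) (hA : e + 1 ≤ A.card) (m : ℕ) :
    ∃ T : Finset ℝ, T.card = A.card + 1 + m ∧
      IsLeast {n | IllumBy (cyclic (e + 1) T) n} (A.card + 1) := by
  obtain ⟨-, hstr⟩ := h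
  set P := (A ×ˢ A).filter fun a => a.1 < a.2 with hP
  have : ∀ a : ℝ × ℝ, ∃ q : ℝ[X], a ∈ P → q.natDegree ≤ e ∧ q.eval a.1 = 0 ∧ q.eval a.2 = 1 ∧
      ∀ x ∈ A, x ≠ a.1 → x ≠ a.2 → 0 < q.eval x ∧ q.eval x < 1 := by
    intro a
    by_cases ha : a ∈ P
    · obtain ⟨h1, h2⟩ := mem_filter.1 ha
      obtain ⟨q, hq⟩ := hstr a.1 (mem_product.1 h1).1 a.2 (mem_product.1 h1).2 h2
      exact ⟨q, fun _ => hq⟩
    · exact ⟨0, fun h => absurd h ha⟩
  choose q hq using this
  obtain ⟨R, hR0, hR⟩ := exists_bound A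
  have ev1 : ∀ᶠ Z in atTop, ∀ a ∈ P, (ext (q a) Z).eval a.1 < 1 / 2 ∧
      1 / 2 < (ext (q a) Z).eval a.2 ∧ ∀ x ∈ A, x ≠ a.1 → x ≠ a.2 →
        (ext (q a) Z).eval a.1 < (ext (q a) Z).eval x ∧
          (ext (q a) Z).eval x < (ext (q a) Z).eval a.2 := by
    refine (eventually_all_finset P).2 fun a ha => ?_
    obtain ⟨q1, q2, q3, q4⟩ := hq a ha
    have t1 := ext_tendsto (q a) a.1
    have t2 := ext_tendsto (q a) a.2
    rw [q2] at t1
    rw [q3] at t2
    refine (t1.eventually (gt_mem_nhds (by norm_num))).and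
      ((t2.eventually (lt_mem_nhds (by norm_num))).and ((eventually_all_finset A).2 fun x hx => ?_))
    by_cases h1 : x = a.1
    · simp [h1]
    by_cases h2 : x = a.2
    · simp [h2]
    obtain ⟨c1, c2⟩ := q4 x hx h1 h2
    filter_upwards [t1.eventually_lt (ext_tendsto (q a) x) c1,
      (ext_tendsto (q a) x).eventually_lt t2 c2] with Z d1 d2
    exact fun _ _ => ⟨d1, d2⟩
  obtain ⟨Z, z1, z2⟩ := (ev1.and (eventually_ge_atTop (3 * R + 1))).exists
  have hlt : ∀ x ∈ A, x < Z := fun x hx => by have := abs_le.1 (hR x hx); linarith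
  obtain ⟨V, hVA, hV⟩ := exists_subset_card_eq hA
  have ev2 : ∀ᶠ x in 𝓝 Z, ∀ a ∈ P, (ext (q a) Z).eval a.1 < (ext (q a) Z).eval x ∧
      (ext (q a) Z).eval x < (ext (q a) Z).eval a.2 := by
    refine (eventually_all_finset P).2 fun a ha => ?_
    have t := (ext (q a) Z).continuous.tendsto Z
    have : (ext (q a) Z).eval Z = 1 / 2 := by
      rw [ext_eval, inv_mul_cancel₀ (by linarith)]; simp
    simp only [this] at t
    exact (t.eventually (lt_mem_nhds (z1 a ha).1)).and (t.eventually (gt_mem_nhds (z1 a ha).2.1))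
  obtain ⟨ρ, hρ, hball⟩ := Metric.eventually_nhds_iff.1
    (ev2.and (close_near (V := V) fun v hv => hlt v (hVA hv)))
  set δ := ρ / (m + 1) with hδ
  have hδ0 : 0 < δ := by positivity
  set B : Finset ℝ := (range (m + 1)).image (fun i : ℕ => Z + i * δ) with hB
  have hBmem : ∀ x ∈ B, Z ≤ x ∧ x ≤ Z + m * δ ∧ dist x Z < ρ := by
    intro x hx
    obtain ⟨i, hi, rfl⟩ := mem_image.1 hx
    have h1 : (i : ℝ) ≤ m := by exact_mod_cast Nat.lt_succ_iff.1 (mem_range.1 hi)
    have h2 : 0 ≤ i * δ := by positivity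
    have h3 := mul_le_mul_of_nonneg_right h1 hδ0.le
    have h4 : (m + 1) * δ = ρ := by rw [hδ]; field_simp
    refine ⟨by linarith, by linarith, ?_⟩
    rw [Real.dist_eq, add_sub_cancel_left, abs_of_nonneg h2]; linarith
  have hdisj : Disjoint A B := disjoint_left.2 fun x h1 h2 => by
    linarith [hlt x h1, (hBmem x h2).1]
  have hcard : (A ∪ B).card = A.card + 1 + m := by
    rw [card_union_of_disjoint hdisj, hB, card_image_of_injective, card_range]
    · omega
    · intro i j hij
      simpa [hδ0.ne'] using hij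
  have hZB : Z ∈ B := mem_image.2 ⟨0, by simp, by simp⟩
  have hzB : Z + m * δ ∈ B := mem_image.2 ⟨m, by simp, rfl⟩
  refine ⟨A ∪ B, hcard, ?_, fun n hn => ?_⟩
  · have := illumBy_of_cover (d := e + 1) (T := A ∪ B) (A := insert Z A) (by omega) (by omega)
      (insert_subset (mem_union_right _ hZB) subset_union_left) (by
        intro x hx
        rcases mem_union.1 hx with hx | hx
        · exact ⟨x, mem_insert_of_mem hx, Or.inl rfl⟩
        · obtain ⟨b1, -, b3⟩ := hBmem x hx
          refine ⟨Z, mem_insert_self _ _, b1.eq_or_lt.imp id fun h => ⟨h, V,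
            hVA.trans subset_union_left, hV, fun v hv => Or.inl (hlt v (hVA hv)), (hball b3).2 h⟩⟩)
    rwa [card_insert_of_notMem fun h => lt_irrefl _ (hlt Z h)] at this
  · have hz : Z ≤ Z + m * δ := (hBmem _ hzB).1
    have := conf_lower (d := e + 1) (T := A ∪ B) (A := insert (Z + m * δ) A) (by omega)
      (insert_subset (mem_union_right _ hzB) subset_union_left) (by
        intro s hs t ht hst
        rcases mem_insert.1 hs with hs' | hs'
        · rcases mem_insert.1 ht with ht' | ht'
          · linarith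
          · linarith [hlt t ht']
        have hsR := abs_le.1 (hR s hs')
        rcases mem_insert.1 ht with ht' | ht'
        · refine ⟨(X - C s) ^ 2, le_trans (by compute_degree) (show 2 ≤ e + 1 by omega), ?_,
            fun x hx => ?_⟩
          · simp only [eval_pow, eval_sub, eval_X, eval_C, sub_self]
            have : 0 < (t - s) ^ 2 := pow_pos (by linarith) 2
            linarith
          · simp only [eval_pow, eval_sub, eval_X, eval_C, sub_self]
            have hx' : -R ≤ x ∧ x ≤ t := by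
              rcases mem_union.1 hx with h | h
              · have := abs_le.1 (hR x h); constructor <;> linarith
              · have := hBmem x h; constructor <;> linarith [this.1, this.2.1]
            have a4 := mul_nonneg (sub_nonneg.2 hx'.2) (show 0 ≤ t + x - 2 * s by linarith)
            have := sq_nonneg (x - s)
            constructor
            · linarith
            · nlinarith
        · have ha : (s, t) ∈ P := mem_filter.2 ⟨mem_product.2 ⟨hs', ht'⟩, hst⟩
          obtain ⟨c1, c2, c3⟩ := z1 _ ha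
          refine ⟨ext (q (s, t)) Z, ext_natDegree (hq _ ha).1 Z, c1.trans c2, fun x hx => ?_⟩
          rcases mem_union.1 hx with h | h
          · by_cases h1 : x = s
            · rw [h1]; exact ⟨le_rfl, (c1.trans c2).le⟩
            by_cases h2 : x = t
            · rw [h2]; exact ⟨(c1.trans c2).le, le_rfl⟩
            exact (c3 x h h1 h2).imp le_of_lt le_of_lt
          · exact ((hball (hBmem x h).2.2).1 _ ha).imp le_of_lt le_of_lt) hn
    rwa [card_insert_of_notMem fun h => by linarith [hlt _ h]] at this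

lemma conf_weak {e : ℕ} {T A : Finset ℝ} (h : Conf e T A) :
    ∀ s ∈ A, ∀ t ∈ A, s < t → ∃ p : ℝ[X], p.natDegree ≤ e ∧ p.eval s < p.eval t ∧
      ∀ x ∈ T, p.eval s ≤ p.eval x ∧ p.eval x ≤ p.eval t := by
  intro s hs t ht hst
  obtain ⟨q, q1, q2, q3, q4⟩ := h.2 s hs t ht hst
  refine ⟨q, q1, by rw [q2, q3]; exact one_pos, fun x hx => ?_⟩
  by_cases h1 : x = s
  · rw [h1, q2, q3]; norm_num
  by_cases h2 : x = t
  · rw [h2, q2, q3]; norm_num
  rw [q2, q3]
  exact (q4 x hx h1 h2).imp le_of_lt le_of_lt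

lemma exists_value {d n k : ℕ} (hd : 2 ≤ d) (h1 : d + 1 ≤ k) (h2 : k ≤ n) (h3 : k ≤ 2 * d - 1) :
    ∃ T : Finset ℝ, T.card = n ∧ IsLeast {m | IllumBy (cyclic d T) m} k := by
  rcases h3.eq_or_lt with h3 | h3
  · obtain ⟨e, rfl⟩ : ∃ e, d = e + 2 := ⟨d - 2, by omega⟩
    obtain ⟨T, A, a1, a2, a3⟩ := conf_all e (n - k)
    have b1 := isLeast_greedy (T := T) hd (by omega)
    have b2 := conf_lower hd a1.1 (conf_weak a1) b1.1
    have b3 := (greedy_le (T := T) hd (by omega)).trans (min_le_right _ _)
    refine ⟨T, by omega, ?_⟩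
    rwa [show k = greedy (e + 2) T by omega]
  · obtain ⟨e, rfl⟩ : ∃ e, d = e + 3 := ⟨d - 3, by omega⟩
    obtain ⟨T, A, a1, a2, a3⟩ := conf_all e 0
    obtain ⟨A', b1, b2⟩ := exists_subset_card_eq (s := A) (n := k - 1) (by omega)
    have b3 : Conf (e + 2) A' A' := ⟨subset_rfl, fun s hs t ht hst => by
      obtain ⟨q, q1, q2, q3, q4⟩ := a1.2 s (b1 hs) t (b1 ht) hst
      exact ⟨q, q1, q2, q3, fun x hx => q4 x (a1.1 (b1 hx))⟩⟩
    obtain ⟨T', c1, c2⟩ := step_one (by omega) b3 (by omega) (n - k)
    refine ⟨T', by omega, ?_⟩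
    rwa [show A'.card + 1 = k by omega] at c2

end Pool.Agent.H.MP_830f5a_co
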